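import Mathlib

set_option autoImplicit false

namespace Pool.Agent.H50.PSV

open Function

/-- A (finite) group `A` is `p`-solvable: it has a finite series of normal subgroups, from `⊥` to
`⊤`, in which every index is a power of `p` or prime to `p`. -/
def IsPSolvable (p : ℕ) (A : Type) [Group A] : Prop :=
  ∃ (k : ℕ) (N : ℕ → Subgroup A), N 0 = ⊥ ∧ N k = ⊤ ∧
    ∀ i, i < k → (N i).Normal ∧ N i ≤ N (i + 1) ∧
      ((∃ m : ℕ, (N i).relIndex (N (i + 1)) = p ^ m) ∨
        Nat.Coprime p ((N i).relIndex (N (i + 1))))

/-- A pseudovariety of finite groups: a class of finite groups closed under subgroups,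
homomorphic images and direct products of two groups. -/
structure IsPseudovariety (C : ∀ (A : Type) [Group A], Prop) : Prop where
  fin : ∀ (A : Type) [Group A], C A → Finite A
  sub : ∀ (A : Type) [Group A] (B : Subgroup A), C A → C B
  image : ∀ (A B : Type) [Group A] [Group B] (f : A →* B), Surjective f → C A → C B
  prod : ∀ (A B : Type) [Group A] [Group B], C A → C B → C (A × B)

/-- Closure under extensions. -/
def IsExtClosed (C : ∀ (A : Type) [Group A], Prop) : Prop :=
  ∀ (A : Type) [Group A] (N : Subgroup A) [N.Normal], C N → C (A ⧸ N) → C A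

/-- A topological group is pro-`C`: its quotients by open normal subgroups are in `C`. -/
def IsPro (C : ∀ (A : Type) [Group A], Prop) (K : Type) [Group K] [TopologicalSpace K] : Prop :=
  ∀ (V : Subgroup K) [V.Normal], IsOpen (V : Set K) → C (K ⧸ V)

/-- `G` is a free pro-`C` group of rank `k`: the universal property for pro-`C` targets. -/
def IsFreeIn (C : ∀ (A : Type) [Group A], Prop) (G : Type) [Group G] [TopologicalSpace G]
    (k : ℕ) : Prop :=
  ∃ ι : Fin k → G,
    ∀ (K : Type) [Group K] [TopologicalSpace K] [IsTopologicalGroup K] [CompactSpace K]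
      [T2Space K] [TotallyDisconnectedSpace K], IsPro C K → ∀ f : Fin k → K,
      ∃! φ : ContinuousMonoidHom G K, ∀ i, φ (ι i) = f i

/-- `P` with the maps `iG`, `iH` is the free pro-`C` product of `G` and `H`: the universal
property of the coproduct for pro-`C` targets. -/
def IsCoprodIn (C : ∀ (A : Type) [Group A], Prop) (G H P : Type) [Group G] [TopologicalSpace G]
    [Group H] [TopologicalSpace H] [Group P] [TopologicalSpace P]
    (iG : ContinuousMonoidHom G P) (iH : ContinuousMonoidHom H P) : Prop :=
  ∀ (K : Type) [Group K] [TopologicalSpace K] [IsTopologicalGroup K] [CompactSpace K]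
    [T2Space K] [TotallyDisconnectedSpace K], IsPro C K →
    ∀ (f : ContinuousMonoidHom G K) (g : ContinuousMonoidHom H K),
    ∃! φ : ContinuousMonoidHom P K, (∀ x, φ (iG x) = f x) ∧ (∀ y, φ (iH y) = g y)

/-- The analogue of the question for pro-`C` groups in rank `n`: whenever the free pro-`C` product
of two pro-`C` groups is a free pro-`C` group of rank `n`, both are free pro-`C` groups of finite
rank. -/
def FreeFactorsFree (C : ∀ (A : Type) [Group A], Prop) (n : ℕ) : Prop :=
  ∀ (G : Type) [Group G] [TopologicalSpace G] [IsTopologicalGroup G] [CompactSpace G]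
    [T2Space G] [TotallyDisconnectedSpace G]
    (H : Type) [Group H] [TopologicalSpace H] [IsTopologicalGroup H] [CompactSpace H]
    [T2Space H] [TotallyDisconnectedSpace H]
    (P : Type) [Group P] [TopologicalSpace P] [IsTopologicalGroup P] [CompactSpace P]
    [T2Space P] [TotallyDisconnectedSpace P]
    (iG : ContinuousMonoidHom G P) (iH : ContinuousMonoidHom H P),
    IsPro C G → IsPro C H → IsPro C P → IsCoprodIn C G H P iG iH → IsFreeIn C P n →
      (∃ a, IsFreeIn C G a) ∧ (∃ b, IsFreeIn C H b)

/-- The decomposition property: in rank `n`, the free pro-`C` group is a free pro-`C` product of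
two pro-`C` groups neither of which is free pro-`C` of finite rank. -/
def NonFreeDecomp (C : ∀ (A : Type) [Group A], Prop) (n : ℕ) : Prop :=
  ∃ (G : Type) (_ : Group G) (_ : TopologicalSpace G) (_ : IsTopologicalGroup G)
    (_ : CompactSpace G) (_ : T2Space G) (_ : TotallyDisconnectedSpace G)
    (H : Type) (_ : Group H) (_ : TopologicalSpace H) (_ : IsTopologicalGroup H)
    (_ : CompactSpace H) (_ : T2Space H) (_ : TotallyDisconnectedSpace H)
    (P : Type) (_ : Group P) (_ : TopologicalSpace P) (_ : IsTopologicalGroup P)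
    (_ : CompactSpace P) (_ : T2Space P) (_ : TotallyDisconnectedSpace P)
    (iG : ContinuousMonoidHom G P) (iH : ContinuousMonoidHom H P),
    IsPro C G ∧ IsPro C H ∧ IsPro C P ∧ IsCoprodIn C G H P iG iH ∧ IsFreeIn C P n ∧
      (∀ k, ¬ IsFreeIn C G k) ∧ (∀ k, ¬ IsFreeIn C H k)

end Pool.Agent.H50.PSV
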