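import Pool.Agent.H50.PSV.Fibre
import Pool.Agent.H50.PSV.Defs

set_option autoImplicit false

namespace Pool.Agent.H50.PSV

open Function Subgroup

/-- The number of pairs whose `conjSub` has order with a given property. -/
noncomputable def num (Pi : ℕ → Prop) (A : Type) [Group A] : ℕ :=
  Nat.card {t : A × A // Pi (Nat.card (conjSub t.1 t.2))}

def PPow (p : ℕ) (n : ℕ) : Prop := ∃ m : ℕ, n = p ^ m

theorem goodPow {p : ℕ} (hp : p.Prime) : GoodPi (PPow p) where
  one := ⟨0, by simp⟩
  mul := by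
    rintro a b ⟨m, rfl⟩ ⟨n, rfl⟩
    exact ⟨m + n, by rw [pow_add]⟩
  dvd := by
    rintro a b hab _ ⟨m, rfl⟩
    obtain ⟨k, _, hk⟩ := (Nat.dvd_prime_pow hp).mp hab
    exact ⟨k, hk⟩

theorem goodCop {p : ℕ} (_hp : p.Prime) : GoodPi (Nat.Coprime p) where
  one := Nat.coprime_one_right p
  mul := fun _ _ ha hb => Nat.Coprime.mul_right ha hb
  dvd := fun _ _ hab _ hb => Nat.Coprime.coprime_dvd_right hab hb

section
variable {A Q : Type} [Group A] [Group Q]

theorem num_subsingleton {Pi : ℕ → Prop} (hPi : GoodPi Pi) [Subsingleton A] : num Pi A = 1 := by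
  have : Unique {t : A × A // Pi (Nat.card (conjSub t.1 t.2))} :=
    { default := ⟨(1, 1), by
        have : Subsingleton (conjSub (1 : A) 1) := inferInstance
        rw [Nat.card_of_subsingleton (1 : conjSub (1 : A) 1)]
        exact hPi.one⟩
      uniq := fun a => Subsingleton.elim _ _ }
  exact Nat.card_unique

theorem pi_map [Finite A] {Pi : ℕ → Prop} (hPi : GoodPi Pi) (π : A →* Q) (x y : A)
    (h : Pi (Nat.card (conjSub x y))) : Pi (Nat.card (conjSub (π x) (π y))) := by
  rw [← map_conjSub]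
  exact hPi.dvd _ _ (Subgroup.card_map_dvd _ _) (Nat.card_pos).ne' h

/-- The fibres of the reduction map. -/
theorem num_step [Finite A] [Finite Q] {Pi : ℕ → Prop} (hPi : GoodPi Pi) (π : A →* Q) (c : ℕ)
    (h : ∀ xb yb : Q, Pi (Nat.card (conjSub xb yb)) →
      Nat.card {t : A × A // (π t.1 = xb ∧ π t.2 = yb) ∧ Pi (Nat.card (conjSub t.1 t.2))} = c) :
    num Pi A = num Pi Q * c := by
  unfold num
  apply card_of_fibres (fun t : {t : A × A // Pi (Nat.card (conjSub t.1 t.2))} =>
    (⟨(π t.1.1, π t.1.2), pi_map hPi π _ _ t.2⟩ :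
      {t : Q × Q // Pi (Nat.card (conjSub t.1 t.2))}))
  rintro ⟨⟨xb, yb⟩, hb⟩
  rw [← h xb yb hb]
  apply Nat.card_congr
  exact
    { toFun := fun t => ⟨t.1.1, ⟨congrArg (fun s => s.1.1) t.2, congrArg (fun s => s.1.2) t.2⟩,
        t.1.2⟩
      invFun := fun t => ⟨⟨t.1, t.2.2⟩, Subtype.ext (Prod.ext t.2.1.1 t.2.1.2)⟩
      left_inv := fun t => rfl
      right_inv := fun t => rfl }

theorem card_coset [Finite A] (π : A →* Q) (hπ : Surjective π) (xb : Q) :
    Nat.card {a : A // π a = xb} = Nat.card π.ker := by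
  obtain ⟨a0, ha0⟩ := hπ xb
  apply Nat.card_congr
  exact
    { toFun := fun a => ⟨a0⁻¹ * a.1, by
        rw [MonoidHom.mem_ker, map_mul, map_inv, a.2, ha0]; group⟩
      invFun := fun k => ⟨a0 * k.1, by
        rw [map_mul, MonoidHom.mem_ker.mp k.2, ha0, mul_one]⟩
      left_inv := fun a => by apply Subtype.ext; simp
      right_inv := fun k => by apply Subtype.ext; simp }

theorem num_all [Finite A] [Finite Q] {Pi : ℕ → Prop} (hPi : GoodPi Pi) (π : A →* Q)
    (hπ : Surjective π) (hN : Pi (Nat.card π.ker)) :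
    num Pi A = num Pi Q * Nat.card π.ker ^ 2 := by
  apply num_step hPi π
  intro xb yb hb
  have e : {t : A × A // (π t.1 = xb ∧ π t.2 = yb) ∧ Pi (Nat.card (conjSub t.1 t.2))} ≃
      {a : A // π a = xb} × {a : A // π a = yb} :=
    { toFun := fun t => (⟨t.1.1, t.2.1.1⟩, ⟨t.1.2, t.2.1.2⟩)
      invFun := fun s => ⟨(s.1.1, s.2.1), ⟨s.1.2, s.2.2⟩, by
        apply lifts_all hPi π hN
        rw [s.1.2, s.2.2]; exact hb⟩
      left_inv := fun t => rfl
      right_inv := fun s => rfl }
  rw [Nat.card_congr e, Nat.card_prod, card_coset π hπ, card_coset π hπ, sq]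

/-- Transfer of complements from the preimage to the whole group. -/
theorem transfer [Finite A] (π : A →* Q) (hπ : Surjective π) (Kb : Subgroup Q)
    (h1 : ∃ K : Subgroup (Kb.comap π), IsComplement' (π.ker.subgroupOf (Kb.comap π)) K)
    (h2 : ∀ K1 K2 : Subgroup (Kb.comap π),
      IsComplement' (π.ker.subgroupOf (Kb.comap π)) K1 →
      IsComplement' (π.ker.subgroupOf (Kb.comap π)) K2 →
      ∃ n ∈ π.ker.subgroupOf (Kb.comap π), K2 = cj n K1) :
    (Om π Kb).Nonempty ∧
      ∀ K1 ∈ Om π Kb, ∀ K2 ∈ Om π Kb, ∃ n ∈ π.ker, K2 = cj n K1 := by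
  have hkle : π.ker ≤ Kb.comap π := by
    intro x hx
    rw [Subgroup.mem_comap, MonoidHom.mem_ker.mp hx]
    exact Kb.one_mem
  constructor
  · obtain ⟨K, hK⟩ := h1
    refine ⟨K.map (Kb.comap π).subtype, ?_, ?_⟩
    · rw [eq_bot_iff]
      rintro z ⟨⟨b, hb, rfl⟩, hz⟩
      have h3 : b ∈ π.ker.subgroupOf (Kb.comap π) ⊓ K := ⟨hz, hb⟩
      rw [hK.disjoint.eq_bot, Subgroup.mem_bot] at h3
      rw [h3]
      simp
    · ext y
      constructor
      · rintro ⟨z, ⟨b, hb, rfl⟩, rfl⟩
        exact b.2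
      · intro hy
        obtain ⟨a, ha⟩ := hπ y
        have haB : a ∈ Kb.comap π := by
          rw [Subgroup.mem_comap, ha]; exact hy
        obtain ⟨⟨n, k⟩, hnk⟩ := hK.2 ⟨a, haB⟩
        refine ⟨k.1.1, ⟨k.1, k.2, rfl⟩, ?_⟩
        have h3 : n.1.1 * k.1.1 = a := congrArg Subtype.val hnk
        have h4 : π n.1.1 = 1 := n.2
        rw [← ha, ← h3, map_mul, h4, one_mul]
  · intro K1 hK1 K2 hK2
    have hle : ∀ K ∈ Om π Kb, K ≤ Kb.comap π := by
      intro K hK x hx
      rw [Subgroup.mem_comap, ← hK.2]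
      exact ⟨x, hx, rfl⟩
    have hc : ∀ K ∈ Om π Kb, IsComplement' (π.ker.subgroupOf (Kb.comap π))
        (K.subgroupOf (Kb.comap π)) := by
      intro K hK
      apply isComplement'_of_disjoint_and_mul_eq_univ
      · rw [disjoint_iff, eq_bot_iff]
        rintro ⟨x, hx⟩ ⟨h3, h4⟩
        have h5 : x ∈ K ⊓ π.ker := ⟨h4, h3⟩
        rw [hK.1, Subgroup.mem_bot] at h5
        rw [Subgroup.mem_bot]
        exact Subtype.ext h5
      · rw [Set.eq_univ_iff_forall]
        rintro ⟨x, hx⟩
        have h3 : π x ∈ K.map π := by rw [hK.2]; exact hx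
        obtain ⟨k, hk, hkx⟩ := h3
        rw [Set.mem_mul]
        refine ⟨⟨x * k⁻¹, (Kb.comap π).mul_mem hx ((Kb.comap π).inv_mem (hle K hK hk))⟩, ?_,
          ⟨k, hle K hK hk⟩, hk, ?_⟩
        · change x * k⁻¹ ∈ π.ker
          rw [MonoidHom.mem_ker, map_mul, map_inv, hkx, mul_inv_cancel]
        · apply Subtype.ext
          change x * k⁻¹ * k = x
          group
    obtain ⟨n, hn, hnK⟩ := h2 _ _ (hc K1 hK1) (hc K2 hK2)
    refine ⟨n.1, hn, ?_⟩
    ext x
    rw [mem_cj]
    constructor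
    · intro hx
      have hxB := hle K2 hK2 hx
      have h3 : (⟨x, hxB⟩ : Kb.comap π) ∈ K2.subgroupOf (Kb.comap π) := hx
      rw [hnK, mem_cj] at h3
      exact h3
    · intro hx
      have hxB : x ∈ Kb.comap π := by
        have h3 := hle K1 hK1 hx
        have h4 := (Kb.comap π).mul_mem ((Kb.comap π).mul_mem n.2 h3) ((Kb.comap π).inv_mem n.2)
        have e : n.1 * (n.1⁻¹ * x * n.1) * n.1⁻¹ = x := by group
        rwa [e] at h4
      have h3 : (⟨x, hxB⟩ : Kb.comap π) ∈ cj n (K1.subgroupOf (Kb.comap π)) := by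
        rw [mem_cj]; exact hx
      rw [← hnK] at h3
      exact h3

theorem card_subgroupOf_ker (π : A →* Q) (Kb : Subgroup Q) :
    Nat.card (π.ker.subgroupOf (Kb.comap π)) = Nat.card π.ker := by
  apply Nat.card_congr
  exact
    { toFun := fun x => ⟨x.1.1, x.2⟩
      invFun := fun x => ⟨⟨x.1, by
        rw [Subgroup.mem_comap, MonoidHom.mem_ker.mp x.2]; exact Kb.one_mem⟩, x.2⟩
      left_inv := fun x => rfl
      right_inv := fun x => rfl }

theorem index_subgroupOf_ker [Finite A] (π : A →* Q) (hπ : Surjective π) (Kb : Subgroup Q) :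
    (π.ker.subgroupOf (Kb.comap π)).index = Nat.card Kb := by
  have h1 := Subgroup.card_mul_index (π.ker.subgroupOf (Kb.comap π))
  have h2 := card_map_mul π (Kb.comap π)
  have h3 : (Kb.comap π).map π = Kb := Subgroup.map_comap_eq_self_of_surjective hπ Kb
  have h4 : (Kb.comap π ⊓ π.ker : Subgroup A) = π.ker := by
    apply inf_eq_right.mpr
    intro x hx
    rw [Subgroup.mem_comap, MonoidHom.mem_ker.mp hx]
    exact Kb.one_mem
  rw [h3, h4] at h2
  rw [card_subgroupOf_ker, h2, mul_comm] at h1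
  exact Nat.eq_of_mul_eq_mul_right Nat.card_pos h1

theorem num_pow_cop [Finite A] [Finite Q] (p : ℕ) [Fact p.Prime] (π : A →* Q)
    (hπ : Surjective π) (hN : Nat.Coprime p (Nat.card π.ker)) :
    num (PPow p) A = num (PPow p) Q * Nat.card π.ker := by
  apply num_step (goodPow Fact.out) π
  intro xb yb hb
  have ht := transfer π hπ (conjSub xb yb) ?_ ?_
  · apply count2 π hπ _ xb yb hb ht.1 ht.2
    rintro a ⟨m, rfl⟩
    exact Nat.Coprime.pow_left m hN
  · refine (compl_sylow p _ ?_ ?_).1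
    · rw [card_subgroupOf_ker]; exact hN
    · rw [index_subgroupOf_ker π hπ]; exact hb
  · refine (compl_sylow p _ ?_ ?_).2
    · rw [card_subgroupOf_ker]; exact hN
    · rw [index_subgroupOf_ker π hπ]; exact hb

theorem num_cop_pow [Finite A] [Finite Q] (p : ℕ) [Fact p.Prime] (π : A →* Q)
    (hπ : Surjective π) (hN : PPow p (Nat.card π.ker)) (hab : ∀ a ∈ π.ker, ∀ b ∈ π.ker, a * b = b * a) :
    num (Nat.Coprime p) A = num (Nat.Coprime p) Q * Nat.card π.ker := by
  apply num_step (goodCop Fact.out) π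
  intro xb yb hb
  have hcomm : IsMulCommutative (π.ker.subgroupOf ((conjSub xb yb).comap π)) :=
    ⟨⟨fun a b => Subtype.ext (Subtype.ext (hab _ a.2 _ b.2))⟩⟩
  have hcop : Nat.Coprime (Nat.card (π.ker.subgroupOf ((conjSub xb yb).comap π)))
      (π.ker.subgroupOf ((conjSub xb yb).comap π)).index := by
    rw [card_subgroupOf_ker, index_subgroupOf_ker π hπ]
    obtain ⟨m, hm⟩ := hN
    rw [hm]
    exact Nat.Coprime.pow_left m hb
  have ht := transfer π hπ (conjSub xb yb) ?_ ?_
  · apply count2 π hπ _ xb yb hb ht.1 ht.2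
    intro a ha
    obtain ⟨m, hm⟩ := hN
    rw [hm]
    exact Nat.Coprime.pow_right m ha.symm
  · exact Subgroup.exists_right_complement'_of_coprime hcop
  · intro K1 K2 h1 h2
    exact conj_of_abelian _ hcop K1 K2 h1 h2

end

/-- A non-trivial `p`-solvable group has a non-trivial normal subgroup which is either an abelian
`p`-group or of order prime to `p`. -/
theorem exists_bottom (p : ℕ) [Fact p.Prime] (A : Type) [Group A] [Finite A] [Nontrivial A]
    (h : IsPSolvable p A) : ∃ N : Subgroup A, N.Normal ∧ N ≠ ⊥ ∧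
      ((PPow p (Nat.card N) ∧ ∀ a ∈ N, ∀ b ∈ N, a * b = b * a) ∨
        Nat.Coprime p (Nat.card N)) := by
  classical
  obtain ⟨k, N, h0, hk, hN⟩ := h
  have hex : ∃ i, N i ≠ ⊥ := ⟨k, by rw [hk]; exact top_ne_bot⟩
  let i := Nat.find hex
  have hi : N i ≠ ⊥ := Nat.find_spec hex
  have hmin : ∀ j, j < i → N j = ⊥ := fun j hj => by
    by_contra hcon
    exact Nat.find_min hex hj hcon
  have hik : i ≤ k := Nat.find_min' hex (by rw [hk]; exact top_ne_bot)
  have hi0 : i ≠ 0 := by
    intro h1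
    rw [h1] at hi
    exact hi h0
  obtain ⟨j, hj⟩ := Nat.exists_eq_succ_of_ne_zero hi0
  have hnorm : (N i).Normal := by
    rcases lt_or_eq_of_le hik with h1 | h1
    · exact (hN i h1).1
    · rw [h1, hk]; infer_instance
  have hjb : N j = ⊥ := hmin j (by omega)
  have hstep := (hN j (by omega)).2.2
  rw [hjb] at hstep
  have hji : j + 1 = i := by omega
  rw [hji, Subgroup.relIndex_bot_left] at hstep
  rcases hstep with h1 | h1
  · -- the centre of the p-group
    have hp : IsPGroup p (N i) := IsPGroup.iff_card.mpr h1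
    have hnt : Nontrivial (N i) := (Subgroup.nontrivial_iff_ne_bot _).mpr hi
    have hz := hp.center_nontrivial
    refine ⟨(Subgroup.center (N i)).map (N i).subtype, inferInstance, ?_, Or.inl ⟨?_, ?_⟩⟩
    · intro hb
      rw [Subgroup.map_eq_bot_iff_of_injective _ (N i).subtype_injective] at hb
      exact (Subgroup.nontrivial_iff_ne_bot _).mp hz hb
    · rw [Subgroup.card_map_of_injective (N i).subtype_injective]
      exact IsPGroup.iff_card.mp (hp.to_subgroup _)
    · rintro a ⟨a', ha', rfl⟩ b ⟨b', hb', rfl⟩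
      have h2 := Subgroup.mem_center_iff.mp ha' b'
      exact (congrArg Subtype.val h2).symm
  · exact ⟨N i, hnorm, hi, Or.inr h1⟩

/-- **The count.** -/
theorem num_mul (p : ℕ) [Fact p.Prime] (C : ∀ (A : Type) [Group A], Prop)
    (hC : IsPseudovariety C) (hps : ∀ (A : Type) [Group A], C A → IsPSolvable p A) :
    ∀ (n : ℕ) (A : Type) [Group A], C A → Nat.card A ≤ n →
      num (PPow p) A * num (Nat.Coprime p) A = Nat.card A ^ 3 := by
  have hp : p.Prime := Fact.out
  intro n
  induction n with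
  | zero =>
    intro A _ hA hcard
    have := hC.fin A hA
    have := Nat.card_pos (α := A)
    omega
  | succ n ih =>
    intro A _ hA hcard
    have hfin := hC.fin A hA
    by_cases hs : Subsingleton A
    · rw [num_subsingleton (goodPow hp), num_subsingleton (goodCop hp),
        Nat.card_of_subsingleton (1 : A)]
      norm_num
    · rw [not_subsingleton_iff_nontrivial] at hs
      obtain ⟨N, hNn, hNb, hN⟩ := exists_bottom p A (hps A hA)
      have hπ : Surjective (QuotientGroup.mk' N) := QuotientGroup.mk'_surjective N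
      have hQ : C (A ⧸ N) := hC.image A (A ⧸ N) (QuotientGroup.mk' N) hπ hA
      have hfQ := hC.fin _ hQ
      have hker : (QuotientGroup.mk' N).ker = N := QuotientGroup.ker_mk' N
      have hcm : Nat.card A = Nat.card (A ⧸ N) * Nat.card N :=
        Subgroup.card_eq_card_quotient_mul_card_subgroup N
      have hN2 : 2 ≤ Nat.card N := by
        have h1 : Nat.card N ≠ 1 := fun h => hNb (Subgroup.card_eq_one.mp h)
        have h2 : 0 < Nat.card N := Nat.card_pos
        omega
      have hQpos : 0 < Nat.card (A ⧸ N) := Nat.card_pos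
      have hlt : Nat.card (A ⧸ N) ≤ n := by
        have : Nat.card (A ⧸ N) < Nat.card A := by rw [hcm]; nlinarith
        omega
      have hIH := ih (A ⧸ N) hQ hlt
      rcases hN with ⟨h1, h2⟩ | h1
      · have e1 := num_all (goodPow hp) (QuotientGroup.mk' N) hπ (by rw [hker]; exact h1)
        have e2 := num_cop_pow p (QuotientGroup.mk' N) hπ (by rw [hker]; exact h1)
          (by rw [hker]; exact h2)
        rw [hker] at e1 e2
        rw [e1, e2, hcm, mul_pow, ← hIH]
        ring
      · have e1 := num_pow_cop p (QuotientGroup.mk' N) hπ (by rw [hker]; exact h1)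
        have e2 := num_all (goodCop hp) (QuotientGroup.mk' N) hπ (by rw [hker]; exact h1)
        rw [hker] at e1 e2
        rw [e1, e2, hcm, mul_pow, ← hIH]
        ring

end Pool.Agent.H50.PSV
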