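import Pool.Agent.H50.PSV.Main

set_option autoImplicit false

namespace Pool.Agent.H50.PSV

open Function Subgroup

/-- The class of finite `p`-solvable groups. -/
def FinPSolvable (p : ℕ) (A : Type) [Group A] : Prop := Finite A ∧ IsPSolvable p A

/-- The class of finite solvable groups. -/
def FinSolvable (A : Type) [Group A] : Prop := Finite A ∧ Group.IsSolvable A

theorem ppow_dvd {p a b : ℕ} (hp : p.Prime) (hab : a ∣ b)
    (h : (∃ m : ℕ, b = p ^ m) ∨ Nat.Coprime p b) : (∃ m : ℕ, a = p ^ m) ∨ Nat.Coprime p a := by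
  rcases h with ⟨m, rfl⟩ | h
  · obtain ⟨k, _, hk⟩ := (Nat.dvd_prime_pow hp).mp hab
    exact Or.inl ⟨k, hk⟩
  · exact Or.inr (Nat.Coprime.coprime_dvd_right hab h)

theorem IsPSolvable.image {p : ℕ} (hp : p.Prime) {A B : Type} [Group A] [Group B] (f : A →* B)
    (hf : Surjective f) (h : IsPSolvable p A) : IsPSolvable p B := by
  obtain ⟨k, N, h0, hk, hN⟩ := h
  refine ⟨k, fun i => (N i).map f, by simp [h0], by
    change (N k).map f = ⊤
    rw [hk]; exact Subgroup.map_top_of_surjective f hf, ?_⟩
  intro i hi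
  obtain ⟨hn, hle, hr⟩ := hN i hi
  refine ⟨hn.map f hf, Subgroup.map_mono hle, ?_⟩
  apply ppow_dvd hp _ hr
  rw [Subgroup.relIndex_map_map]
  have h1 : (N (i + 1) ⊔ f.ker) = N (i + 1) ⊔ (N i ⊔ f.ker) := by
    rw [← sup_assoc, sup_eq_left.mpr hle]
  have h2 : (N i ⊔ f.ker).Normal := inferInstance
  rw [h1, Subgroup.relIndex_sup_right]
  exact Subgroup.relIndex_dvd_of_le_left _ le_sup_left

theorem IsPSolvable.sub {p : ℕ} (hp : p.Prime) {A : Type} [Group A] (B : Subgroup A)
    (h : IsPSolvable p A) : IsPSolvable p B := by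
  obtain ⟨k, N, h0, hk, hN⟩ := h
  refine ⟨k, fun i => (N i).comap B.subtype, by
    change (N 0).comap B.subtype = ⊥
    rw [h0, MonoidHom.comap_bot, Subgroup.ker_subtype], by
    change (N k).comap B.subtype = ⊤
    rw [hk, Subgroup.comap_top], ?_⟩
  intro i hi
  obtain ⟨hn, hle, hr⟩ := hN i hi
  refine ⟨hn.comap B.subtype, Subgroup.comap_mono hle, ?_⟩
  apply ppow_dvd hp _ hr
  rw [Subgroup.relIndex_comap]
  have h1 : ((N (i + 1)).comap B.subtype).map B.subtype ≤ N (i + 1) := Subgroup.map_comap_le _ _
  rw [← Subgroup.relIndex_subgroupOf h1]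
  have h2 : ((N i).subgroupOf (N (i + 1))).Normal := hn.subgroupOf _
  exact Subgroup.relIndex_dvd_index_of_normal _ _

theorem IsPSolvable.prod {p : ℕ} {A B : Type} [Group A] [Group B]
    (h : IsPSolvable p A) (h' : IsPSolvable p B) : IsPSolvable p (A × B) := by
  obtain ⟨k, N, h0, hk, hN⟩ := h
  obtain ⟨l, M, g0, gl, hM⟩ := h'
  have hinl : Injective (MonoidHom.inl A B) := fun a b hab => (Prod.ext_iff.mp hab).1
  have hsnd : Surjective (MonoidHom.snd A B) := fun b => ⟨(1, b), rfl⟩
  have hjoin : (⊤ : Subgroup A).map (MonoidHom.inl A B) = (⊥ : Subgroup B).comap (MonoidHom.snd A B) := by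
    ext ⟨a, b⟩
    rw [Subgroup.mem_comap]
    constructor
    · rintro ⟨c, _, hc⟩
      change (c, (1 : B)) = (a, b) at hc
      rw [← hc]
      exact Subgroup.one_mem _
    · intro hb
      have hb' : b = 1 := hb
      exact ⟨a, trivial, by rw [hb']; rfl⟩
  refine ⟨k + l, fun i => if i ≤ k then (N i).map (MonoidHom.inl A B) else
    (M (i - k)).comap (MonoidHom.snd A B), ?_, ?_, ?_⟩
  · simp [h0]
  · change (if k + l ≤ k then _ else _) = _
    by_cases hl : l = 0
    · subst hl
      have hMB : (⊤ : Subgroup B) = ⊥ := by rw [← gl, g0]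
      rw [if_pos (by omega)]
      change (N k).map (MonoidHom.inl A B) = ⊤
      rw [hk, hjoin, ← hMB, Subgroup.comap_top]
    · rw [if_neg (by omega), show k + l - k = l by omega, gl, Subgroup.comap_top]
  · intro i hi
    change (if i ≤ k then (N i).map (MonoidHom.inl A B) else
      (M (i - k)).comap (MonoidHom.snd A B)).Normal ∧
      (if i ≤ k then (N i).map (MonoidHom.inl A B) else
        (M (i - k)).comap (MonoidHom.snd A B)) ≤ (if i + 1 ≤ k then (N (i + 1)).map (MonoidHom.inl A B) else
        (M (i + 1 - k)).comap (MonoidHom.snd A B)) ∧ _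
    by_cases h1 : i + 1 ≤ k
    · obtain ⟨hn, hle, hr⟩ := hN i (by omega)
      rw [if_pos (by omega), if_pos h1]
      refine ⟨⟨?_⟩, Subgroup.map_mono hle, ?_⟩
      · rintro _ ⟨c, hc, rfl⟩ ⟨a, b⟩
        refine ⟨a * c * a⁻¹, hn.conj_mem c hc a, ?_⟩
        change (a * c * a⁻¹, (1 : B)) = (a * c * a⁻¹, b * 1 * b⁻¹)
        simp
      · change (∃ m : ℕ, Subgroup.relIndex (if i ≤ k then (N i).map (MonoidHom.inl A B) else
          (M (i - k)).comap (MonoidHom.snd A B)) (if i + 1 ≤ k then
            (N (i + 1)).map (MonoidHom.inl A B) else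
            (M (i + 1 - k)).comap (MonoidHom.snd A B)) = p ^ m) ∨ Nat.Coprime p
          (Subgroup.relIndex (if i ≤ k then (N i).map (MonoidHom.inl A B) else
          (M (i - k)).comap (MonoidHom.snd A B)) (if i + 1 ≤ k then
            (N (i + 1)).map (MonoidHom.inl A B) else
            (M (i + 1 - k)).comap (MonoidHom.snd A B)))
        rw [if_pos (by omega), if_pos h1, Subgroup.relIndex_map_map_of_injective _ _ hinl]
        exact hr
    · have hnorm : ∀ j, j < l → ((M j).comap (MonoidHom.snd A B)).Normal := fun j hj =>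
        (hM j hj).1.comap _
      -- the index `j` in the second series
      obtain ⟨j, hj⟩ : ∃ j, i = k + j := ⟨i - k, by omega⟩
      have hjl : j < l := by omega
      have hfirst : (if i ≤ k then (N i).map (MonoidHom.inl A B) else
          (M (i - k)).comap (MonoidHom.snd A B)) = (M j).comap (MonoidHom.snd A B) := by
        by_cases h2 : i ≤ k
        · have h3 : j = 0 := by omega
          have h4 : i = k := by omega
          rw [if_pos h2, h4, hk, h3, g0, hjoin]
        · rw [if_neg h2]
          congr 2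
          omega
      have hsecond : (if i + 1 ≤ k then (N (i + 1)).map (MonoidHom.inl A B) else
          (M (i + 1 - k)).comap (MonoidHom.snd A B)) = (M (j + 1)).comap (MonoidHom.snd A B) := by
        rw [if_neg h1]
        congr 2
        omega
      change _ ∧ _ ∧ ((∃ m : ℕ, Subgroup.relIndex (if i ≤ k then (N i).map (MonoidHom.inl A B) else
          (M (i - k)).comap (MonoidHom.snd A B)) (if i + 1 ≤ k then
            (N (i + 1)).map (MonoidHom.inl A B) else
            (M (i + 1 - k)).comap (MonoidHom.snd A B)) = p ^ m) ∨ Nat.Coprime p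
          (Subgroup.relIndex (if i ≤ k then (N i).map (MonoidHom.inl A B) else
          (M (i - k)).comap (MonoidHom.snd A B)) (if i + 1 ≤ k then
            (N (i + 1)).map (MonoidHom.inl A B) else
            (M (i + 1 - k)).comap (MonoidHom.snd A B))))
      rw [hfirst, hsecond]
      obtain ⟨hn, hle, hr⟩ := hM j hjl
      refine ⟨hnorm j hjl, Subgroup.comap_mono hle, ?_⟩
      rw [Subgroup.relIndex_comap, Subgroup.map_comap_eq_self_of_surjective hsnd]
      exact hr

theorem pseudovariety_psolvable {p : ℕ} (hp : p.Prime) : IsPseudovariety (FinPSolvable p) where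
  fin := fun _ _ h => h.1
  sub := fun _ _ B h => ⟨by have := h.1; infer_instance, h.2.sub hp B⟩
  image := fun _ _ _ _ f hf h => ⟨by have := h.1; exact Finite.of_surjective f hf, h.2.image hp f hf⟩
  prod := fun _ _ _ _ h h' => ⟨by have := h.1; have := h'.1; infer_instance, h.2.prod h'.2⟩

/-- Groups whose order is a power of `p` or prime to `p` are `p`-solvable. -/
theorem isPSolvable_of_card {p : ℕ} {A : Type} [Group A]
    (h : (∃ m : ℕ, Nat.card A = p ^ m) ∨ Nat.Coprime p (Nat.card A)) : IsPSolvable p A := by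
  refine ⟨1, fun i => if i = 0 then ⊥ else ⊤, rfl, rfl, ?_⟩
  intro i hi
  have h0 : i = 0 := by omega
  subst h0
  refine ⟨?_, ?_, ?_⟩
  · change (⊥ : Subgroup A).Normal
    infer_instance
  · exact bot_le
  · change (∃ m : ℕ, (⊥ : Subgroup A).relIndex ⊤ = p ^ m) ∨
      Nat.Coprime p ((⊥ : Subgroup A).relIndex ⊤)
    rw [Subgroup.relIndex_bot_left, Subgroup.card_top]
    exact h

/-- Extension by a bottom layer. -/
theorem isPSolvable_ext {p : ℕ} {A : Type} [Group A] (N : Subgroup A) [N.Normal]
    (h : (∃ m : ℕ, Nat.card N = p ^ m) ∨ Nat.Coprime p (Nat.card N))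
    (hq : IsPSolvable p (A ⧸ N)) : IsPSolvable p A := by
  obtain ⟨k, M, g0, gk, hM⟩ := hq
  have hsurj := QuotientGroup.mk'_surjective N
  have hbot : (M 0).comap (QuotientGroup.mk' N) = N := by
    rw [g0, MonoidHom.comap_bot, QuotientGroup.ker_mk']
  refine ⟨k + 1, fun i => if i = 0 then ⊥ else (M (i - 1)).comap (QuotientGroup.mk' N), rfl, ?_, ?_⟩
  · change (if k + 1 = 0 then ⊥ else (M (k + 1 - 1)).comap (QuotientGroup.mk' N)) = ⊤
    rw [if_neg (by omega), show k + 1 - 1 = k by omega, gk, Subgroup.comap_top]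
  · intro i hi
    rcases Nat.eq_zero_or_pos i with h0 | h0
    · subst h0
      refine ⟨?_, bot_le, ?_⟩
      · change (⊥ : Subgroup A).Normal
        infer_instance
      · change (∃ m : ℕ, (⊥ : Subgroup A).relIndex ((M 0).comap (QuotientGroup.mk' N)) = p ^ m) ∨
          Nat.Coprime p ((⊥ : Subgroup A).relIndex ((M 0).comap (QuotientGroup.mk' N)))
        rw [Subgroup.relIndex_bot_left, hbot]
        exact h
    · obtain ⟨j, rfl⟩ : ∃ j, i = j + 1 := ⟨i - 1, by omega⟩
      obtain ⟨hn, hle, hr⟩ := hM j (by omega)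
      change ((M j).comap (QuotientGroup.mk' N)).Normal ∧
        (M j).comap (QuotientGroup.mk' N) ≤ (M (j + 1)).comap (QuotientGroup.mk' N) ∧
        ((∃ m : ℕ, ((M j).comap (QuotientGroup.mk' N)).relIndex
          ((M (j + 1)).comap (QuotientGroup.mk' N)) = p ^ m) ∨
          Nat.Coprime p (((M j).comap (QuotientGroup.mk' N)).relIndex
          ((M (j + 1)).comap (QuotientGroup.mk' N))))
      refine ⟨hn.comap _, Subgroup.comap_mono hle, ?_⟩
      rw [Subgroup.relIndex_comap, Subgroup.map_comap_eq_self_of_surjective hsurj]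
      exact hr

/-- A non-trivial finite solvable group has a non-trivial abelian normal subgroup. -/
theorem exists_abelian_normal (n : ℕ) : ∀ (A : Type) [Group A] [Finite A] [Group.IsSolvable A]
    (H : Subgroup A) [H.Normal], H ≠ ⊥ → Nat.card H ≤ n →
    ∃ D : Subgroup A, D.Normal ∧ D ≠ ⊥ ∧ ∀ a ∈ D, ∀ b ∈ D, a * b = b * a := by
  induction n with
  | zero =>
    intro A _ _ _ H _ _ hc
    have : 0 < Nat.card H := Nat.card_pos
    omega
  | succ n ih =>
    intro A _ _ _ H _ hH hc
    by_cases h1 : ⁅H, H⁆ = ⊥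
    · refine ⟨H, inferInstance, hH, ?_⟩
      intro a ha b hb
      have h2 := Subgroup.commutator_eq_bot_iff_le_centralizer.mp h1 ha
      exact (Subgroup.mem_centralizer_iff.mp h2 b hb).symm
    · have h2 : ⁅H, H⁆ < H := Group.IsSolvable.commutator_lt_of_ne_bot hH
      have h3 : Nat.card (⁅H, H⁆ : Subgroup A) < Nat.card H := by
        by_contra hcon
        push Not at hcon
        exact h2.ne (Subgroup.eq_of_le_of_card_ge h2.le hcon)
      exact ih A ⁅H, H⁆ h1 (by omega)

theorem isPSolvable_of_solvable {p : ℕ} (hp : p.Prime) (n : ℕ) : ∀ (A : Type) [Group A] [Finite A]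
    [Group.IsSolvable A], Nat.card A ≤ n → IsPSolvable p A := by
  have : Fact p.Prime := ⟨hp⟩
  induction n with
  | zero =>
    intro A _ _ _ hc
    have : 0 < Nat.card A := Nat.card_pos
    omega
  | succ n ih =>
    intro A _ _ _ hc
    by_cases hs : Subsingleton A
    · apply isPSolvable_of_card
      left
      exact ⟨0, by rw [Nat.card_of_subsingleton (1 : A), pow_zero]⟩
    · rw [not_subsingleton_iff_nontrivial] at hs
      obtain ⟨D, hDn, hDb, hDc⟩ := exists_abelian_normal (Nat.card (⊤ : Subgroup A)) A ⊤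
        top_ne_bot le_rfl
      -- a non-trivial normal subgroup, a `p`-group or of order prime to `p`
      have key : ∃ N : Subgroup A, N.Normal ∧ N ≠ ⊥ ∧
          ((∃ m : ℕ, Nat.card N = p ^ m) ∨ Nat.Coprime p (Nat.card N)) := by
        by_cases hpD : p ∣ Nat.card D
        · let N : Subgroup A :=
            { carrier := {x | x ∈ D ∧ x ^ p = 1}
              mul_mem' := by
                rintro a b ⟨ha, ha'⟩ ⟨hb, hb'⟩
                refine ⟨D.mul_mem ha hb, ?_⟩
                have hab : Commute a b := hDc a ha b hb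
                rw [hab.mul_pow, ha', hb', one_mul]
              one_mem' := ⟨D.one_mem, one_pow p⟩
              inv_mem' := by
                rintro a ⟨ha, ha'⟩
                exact ⟨D.inv_mem ha, by rw [inv_pow, ha', inv_one]⟩ }
          refine ⟨N, ⟨?_⟩, ?_, Or.inl ?_⟩
          · rintro x ⟨hx, hx'⟩ g
            refine ⟨hDn.conj_mem x hx g, ?_⟩
            rw [conj_pow, hx', mul_one, mul_inv_cancel]
          · intro hN
            obtain ⟨x, hx⟩ := exists_prime_orderOf_dvd_card' (G := D) p hpD
            have h1 : (x : A) ∈ N := by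
              refine ⟨x.2, ?_⟩
              have h2 := pow_orderOf_eq_one x
              rw [hx] at h2
              exact congrArg Subtype.val h2
            rw [hN, Subgroup.mem_bot] at h1
            have h2 : x = 1 := Subtype.ext h1
            rw [h2, orderOf_one] at hx
            exact hp.one_lt.ne hx
          · have h1 : IsPGroup p N := by
              rintro ⟨x, hx⟩
              exact ⟨1, Subtype.ext (by rw [pow_one]; exact hx.2)⟩
            exact IsPGroup.iff_card.mp h1
        · exact ⟨D, hDn, hDb, Or.inr ((Nat.Prime.coprime_iff_not_dvd hp).mpr hpD)⟩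
      obtain ⟨N, hNn, hNb, hN⟩ := key
      apply isPSolvable_ext N hN
      have hsolv : Group.IsSolvable (A ⧸ N) :=
        Group.isSolvable_of_surjective (QuotientGroup.mk'_surjective N)
      apply ih (A ⧸ N)
      have hcm : Nat.card A = Nat.card (A ⧸ N) * Nat.card N :=
        Subgroup.card_eq_card_quotient_mul_card_subgroup N
      have hN2 : 2 ≤ Nat.card N := by
        have h1 : Nat.card N ≠ 1 := fun h => hNb (Subgroup.card_eq_one.mp h)
        have h2 : 0 < Nat.card N := Nat.card_pos
        omega
      have hQpos : 0 < Nat.card (A ⧸ N) := Nat.card_pos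
      have : Nat.card (A ⧸ N) < Nat.card A := by rw [hcm]; nlinarith
      omega

theorem pseudovariety_solvable : IsPseudovariety FinSolvable where
  fin := fun _ _ h => h.1
  sub := fun _ _ B h => ⟨by have := h.1; infer_instance, by have := h.2; infer_instance⟩
  image := fun _ _ _ _ f hf h => ⟨by have := h.1; exact Finite.of_surjective f hf, by
    have := h.2; exact Group.isSolvable_of_surjective hf⟩
  prod := fun _ _ _ _ h h' => ⟨by have := h.1; have := h'.1; infer_instance, by
    have := h.2; have := h'.2; infer_instance⟩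

theorem nonfree_psolvable {p : ℕ} (hp : p.Prime) (n : ℕ) (hn : 3 ≤ n) :
    NonFreeDecomp (FinPSolvable p) n := by
  have hfin : ∀ l : ℕ, l.Prime → Finite (Multiplicative (ZMod l)) := by
    intro l hl
    have : NeZero l := ⟨hl.ne_zero⟩
    infer_instance
  obtain ⟨q, hqp, hq⟩ := Nat.exists_infinite_primes (p + 1)
  apply nonfree hp (pseudovariety_psolvable hp) (fun _ _ h => h.2) _ _ n hn
  · exact ⟨hfin p hp, isPSolvable_of_card (Or.inl ⟨1, by rw [card_mulZMod, pow_one]⟩)⟩
  · exact ⟨q, hq, by omega, hfin q hq, isPSolvable_of_card (Or.inr (by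
      rw [card_mulZMod]
      exact (Nat.coprime_primes hp hq).mpr (by omega)))⟩

theorem nonfree_solvable (n : ℕ) (hn : 3 ≤ n) : NonFreeDecomp FinSolvable n := by
  apply nonfree Nat.prime_two pseudovariety_solvable
    (fun A _ h => by
      have := h.1
      have := h.2
      exact isPSolvable_of_solvable Nat.prime_two (Nat.card A) A le_rfl) _ _ n hn
  · exact ⟨inferInstance, inferInstance⟩
  · exact ⟨3, Nat.prime_three, by norm_num, inferInstance, inferInstance⟩

end Pool.Agent.H50.PSV
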