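import Pool.Agent.H50.PSV.Pos
import Pool.Agent.H50.PSV.Classes

set_option autoImplicit false

namespace Pool.Agent.H50.PSV

open Function Subgroup

/-- The join of the normal subgroups whose order has property `Pi`. -/
def bigO (Pi : ℕ → Prop) (N : Type) [Group N] : Subgroup N :=
  sSup {K : Subgroup N | K.Normal ∧ Pi (Nat.card K)}

theorem bigO_spec {Pi : ℕ → Prop} (hPi : GoodPi Pi) (N : Type) [Group N] [Finite N] :
    (bigO Pi N).Normal ∧ Pi (Nat.card (bigO Pi N)) := by
  have key : ∀ S : Set (Subgroup N), S.Finite → (∀ K ∈ S, K.Normal ∧ Pi (Nat.card K)) →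
      (sSup S : Subgroup N).Normal ∧ Pi (Nat.card (sSup S : Subgroup N)) := by
    intro S hS
    induction S, hS using Set.Finite.induction_on with
    | empty =>
      intro _
      rw [sSup_empty, Subgroup.card_bot]
      exact ⟨inferInstance, hPi.one⟩
    | insert _ _ ih =>
      rename_i K S' _ _
      intro h
      obtain ⟨h1, h2⟩ := ih (fun L hL => h L (Set.mem_insert_of_mem _ hL))
      obtain ⟨h3, h4⟩ := h K (Set.mem_insert _ _)
      rw [sSup_insert]
      refine ⟨inferInstance, ?_⟩
      apply hPi.dvd _ (Nat.card K * Nat.card (sSup S' : Subgroup N)) _ _ (hPi.mul _ _ h4 h2)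
      · have e1 : Nat.card (sSup S' : Subgroup N) * (sSup S' : Subgroup N).relIndex
            (K ⊔ sSup S') = Nat.card (K ⊔ sSup S' : Subgroup N) := by
          have e2 := Subgroup.relIndex_mul_relIndex (⊥ : Subgroup N) (sSup S') (K ⊔ sSup S')
            bot_le le_sup_right
          rw [Subgroup.relIndex_bot_left, Subgroup.relIndex_bot_left] at e2
          exact e2
        rw [Subgroup.relIndex_sup_right] at e1
        rw [← e1, mul_comm (Nat.card K)]
        exact Nat.mul_dvd_mul_left _ (Subgroup.relIndex_dvd_card _ _)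
      · exact (Nat.mul_pos Nat.card_pos Nat.card_pos).ne'
  exact key _ (Set.toFinite _) (fun K hK => hK)

theorem bigO_char (Pi : ℕ → Prop) (N : Type) [Group N] : (bigO Pi N).Characteristic := by
  rw [Subgroup.characteristic_iff_map_le]
  intro φ
  unfold bigO
  rw [Subgroup.map_le_iff_le_comap]
  apply sSup_le
  rintro K ⟨hK, hK'⟩
  rw [← Subgroup.map_le_iff_le_comap]
  apply le_sSup
  refine ⟨hK.map φ.toMonoidHom φ.surjective, ?_⟩
  rw [Subgroup.card_map_of_injective (f := φ.toMonoidHom) φ.injective]
  exact hK'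

theorem psolvable_ext_aux {p : ℕ} (hp : p.Prime) (n : ℕ) : ∀ (A : Type) [Group A] [Finite A]
    (N : Subgroup A) [N.Normal], Nat.card A ≤ n → IsPSolvable p N → IsPSolvable p (A ⧸ N) →
    IsPSolvable p A := by
  have : Fact p.Prime := ⟨hp⟩
  induction n with
  | zero =>
    intro A _ _ _ _ hc
    have : 0 < Nat.card A := Nat.card_pos
    omega
  | succ n ih =>
    intro A _ _ N _ hc hN hQ
    by_cases hNb : N = ⊥
    · apply isPSolvable_ext N (Or.inl ⟨0, by rw [hNb, Subgroup.card_bot, pow_zero]⟩) hQ
    · have hnt : Nontrivial N := (Subgroup.nontrivial_iff_ne_bot _).mpr hNb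
      obtain ⟨K, hKn, hKb, hK⟩ := exists_bottom p N hN
      -- a characteristic subgroup of `N`
      have key : ∃ O : Subgroup N, O.Characteristic ∧ O ≠ ⊥ ∧
          ((∃ m : ℕ, Nat.card O = p ^ m) ∨ Nat.Coprime p (Nat.card O)) := by
        rcases hK with ⟨h1, _⟩ | h1
        · refine ⟨bigO (PPow p) N, bigO_char _ _, ?_, Or.inl (bigO_spec (goodPow hp) N).2⟩
          intro h2
          apply hKb
          rw [eq_bot_iff, ← h2]
          exact le_sSup ⟨hKn, h1⟩
        · refine ⟨bigO (Nat.Coprime p) N, bigO_char _ _, ?_, Or.inr (bigO_spec (goodCop hp) N).2⟩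
          intro h2
          apply hKb
          rw [eq_bot_iff, ← h2]
          exact le_sSup ⟨hKn, h1⟩
      obtain ⟨O, hOc, hOb, hO⟩ := key
      let M : Subgroup A := O.map N.subtype
      have hMn : M.Normal := ConjAct.normal_of_characteristic_of_normal
      have hMcard : Nat.card M = Nat.card O := Subgroup.card_map_of_injective N.subtype_injective
      have hMb : M ≠ ⊥ := by
        intro h1
        rw [Subgroup.map_eq_bot_iff_of_injective _ N.subtype_injective] at h1
        exact hOb h1
      apply isPSolvable_ext M (by rw [hMcard]; exact hO)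
      have hlt : Nat.card (A ⧸ M) ≤ n := by
        have hcm : Nat.card A = Nat.card (A ⧸ M) * Nat.card M :=
          Subgroup.card_eq_card_quotient_mul_card_subgroup M
        have hN2 : 2 ≤ Nat.card M := by
          have h1 : Nat.card M ≠ 1 := fun h => hMb (Subgroup.card_eq_one.mp h)
          have h2 : 0 < Nat.card M := Nat.card_pos
          omega
        have hQpos : 0 < Nat.card (A ⧸ M) := Nat.card_pos
        have : Nat.card (A ⧸ M) < Nat.card A := by rw [hcm]; nlinarith
        omega
      have hNM : (N.map (QuotientGroup.mk' M)).Normal :=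
        Subgroup.Normal.map inferInstance _ (QuotientGroup.mk'_surjective M)
      apply ih (A ⧸ M) (N.map (QuotientGroup.mk' M)) hlt
      · exact hN.image hp ((QuotientGroup.mk' M).subgroupMap N)
          ((QuotientGroup.mk' M).subgroupMap_surjective N)
      · apply hQ.image hp (QuotientGroup.map N (N.map (QuotientGroup.mk' M))
          (QuotientGroup.mk' M) (Subgroup.le_comap_map _ _))
        intro y
        obtain ⟨z, rfl⟩ := QuotientGroup.mk'_surjective _ y
        obtain ⟨a, rfl⟩ := QuotientGroup.mk'_surjective _ z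
        exact ⟨QuotientGroup.mk a, rfl⟩

theorem extClosed_psolvable {p : ℕ} (hp : p.Prime) : IsExtClosed (FinPSolvable p) := by
  intro A _ N _ hN hQ
  have h1 := hN.1
  have h2 := hQ.1
  have h3 : Finite A := by
    have h4 : N.FiniteIndex := Subgroup.finiteIndex_of_finite_quotient
    apply Nat.finite_of_card_ne_zero
    rw [← Subgroup.card_mul_index N]
    exact Nat.mul_ne_zero (Nat.card_pos).ne' h4.index_ne_zero
  exact ⟨h3, psolvable_ext_aux hp (Nat.card A) A N le_rfl hN.2 hQ.2⟩

theorem extClosed_solvable : IsExtClosed FinSolvable := by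
  intro A _ N _ hN hQ
  have h1 := hN.1
  have h2 := hQ.1
  have h3 : Finite A := by
    have h4 : N.FiniteIndex := Subgroup.finiteIndex_of_finite_quotient
    apply Nat.finite_of_card_ne_zero
    rw [← Subgroup.card_mul_index N]
    exact Nat.mul_ne_zero (Nat.card_pos).ne' h4.index_ne_zero
  have h4 := hN.2
  have h5 := hQ.2
  refine ⟨h3, ?_⟩
  exact Group.isSolvable_of_ker_le_range N.subtype (QuotientGroup.mk' N) (by
    rw [QuotientGroup.ker_mk', Subgroup.range_subtype])

theorem freeFactors_le_two {C : ∀ (A : Type) [Group A], Prop} (hC : IsPseudovariety C)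
    (hE : IsExtClosed C) (n : ℕ) (hn : n ≤ 2) : FreeFactorsFree C n := by
  intro G _ _ _ _ _ _ H _ _ _ _ _ _ P _ _ _ _ _ _ iG iH hG hH _ hcop hF
  obtain ⟨a, b, _, ha, hb⟩ := free_le_two hC hE G H P hG hH iG iH hcop n hn hF
  exact ⟨⟨a, ha⟩, ⟨b, hb⟩⟩

theorem not_freeFactors {C : ∀ (A : Type) [Group A], Prop} {n : ℕ} (h : NonFreeDecomp C n) :
    ¬ FreeFactorsFree C n := by
  intro hF
  obtain ⟨G, _, _, _, _, _, _, H, _, _, _, _, _, _, P, _, _, _, _, _, _, iG, iH, hG, hH, hP, hcop,
    hfree, hnG, _⟩ := h
  obtain ⟨⟨a, ha⟩, _⟩ := hF G H P iG iH hG hH hP hcop hfree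
  exact hnG a ha

theorem iff_solvable (n : ℕ) : FreeFactorsFree FinSolvable n ↔ n ≤ 2 := by
  constructor
  · intro h
    by_contra hcon
    exact not_freeFactors (nonfree_solvable n (by omega)) h
  · exact freeFactors_le_two pseudovariety_solvable extClosed_solvable n

theorem iff_psolvable {p : ℕ} (hp : p.Prime) (n : ℕ) :
    FreeFactorsFree (FinPSolvable p) n ↔ n ≤ 2 := by
  constructor
  · intro h
    by_contra hcon
    exact not_freeFactors (nonfree_psolvable hp n (by omega)) h
  · exact freeFactors_le_two (pseudovariety_psolvable hp) (extClosed_psolvable hp) n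

end Pool.Agent.H50.PSV
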