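import Pool.Agent.H50.PSV.Ext

set_option autoImplicit false

namespace Pool.Agent.H50.PSV

open Function Pool.Agent.H21.Prof

/-- Conditions on tuples in finite groups which define a completion. -/
structure CondOK (X : Type) (cond : ∀ (A : Type) [Group A], (X → A) → Prop) : Prop where
  one : ∀ (A : Type) [Group A], cond A (fun _ => 1)
  map : ∀ (A B : Type) [Group A] [Group B] [Finite A] [Finite B] (f : A →* B) (t : X → A),
    cond A t → cond B (f ∘ t)
  inj : ∀ (A B : Type) [Group A] [Group B] [Finite A] [Finite B] (f : A →* B) (t : X → A),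
    Injective f → cond B (f ∘ t) → cond A t
  prod : ∀ (A B : Type) [Group A] [Group B] [Finite A] [Finite B] (t : X → A) (s : X → B),
    cond A t → cond B s → cond (A × B) (fun x => (t x, s x))

/-- Kernels of the admissible homomorphisms from the free group. -/
structure Ix (C : ∀ (A : Type) [Group A], Prop) (X : Type)
    (cond : ∀ (A : Type) [Group A], (X → A) → Prop) : Type where
  U : Subgroup (FreeGroup X)
  nor : U.Normal
  mem : C (FreeGroup X ⧸ U)
  fin : Finite (FreeGroup X ⧸ U)
  con : cond (FreeGroup X ⧸ U) (fun x => QuotientGroup.mk (FreeGroup.of x))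

variable {C : ∀ (A : Type) [Group A], Prop} {X : Type}
  {cond : ∀ (A : Type) [Group A], (X → A) → Prop}

/-- The finite quotients. -/
def FQ (i : Ix C X cond) : Type := FreeGroup X ⧸ i.U

instance (i : Ix C X cond) : i.U.Normal := i.nor

instance (i : Ix C X cond) : Group (FQ i) := inferInstanceAs (Group (FreeGroup X ⧸ i.U))

instance (i : Ix C X cond) : Finite (FQ i) := i.fin

instance (i : Ix C X cond) : TopologicalSpace (FQ i) := ⊥

instance (i : Ix C X cond) : DiscreteTopology (FQ i) := ⟨rfl⟩

/-- The quotient map. -/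
def qmk (i : Ix C X cond) : FreeGroup X →* FQ i := QuotientGroup.mk' i.U

/-- Lifting to the quotient. -/
def liftFQ (i : Ix C X cond) {A : Type} [Group A] (f : FreeGroup X →* A) (h : i.U ≤ f.ker) :
    FQ i →* A := QuotientGroup.lift i.U f h

theorem liftFQ_qmk (i : Ix C X cond) {A : Type} [Group A] (f : FreeGroup X →* A)
    (h : i.U ≤ f.ker) (w : FreeGroup X) : liftFQ i f h (qmk i w) = f w := rfl

theorem qmk_surj (i : Ix C X cond) : Surjective (qmk i) := QuotientGroup.mk'_surjective i.U

theorem qmk_eq_one (i : Ix C X cond) (w : FreeGroup X) : qmk i w = 1 ↔ w ∈ i.U :=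
  QuotientGroup.eq_one_iff w

variable (C X cond) in
/-- The map to the product. -/
def jmap : FreeGroup X →* ((i : Ix C X cond) → FQ i) where
  toFun w := fun i => qmk i w
  map_one' := by funext i; exact map_one _
  map_mul' a b := by funext i; exact map_mul _ _ _

variable (C X cond) in
/-- The completion, as a subgroup of the product. -/
def cpl : Subgroup ((i : Ix C X cond) → FQ i) := (jmap C X cond).range.topologicalClosure

variable (C X cond) in
/-- The completion. -/
def Cp : Type := cpl C X cond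

instance : Group (Cp C X cond) := inferInstanceAs (Group (cpl C X cond))
instance : TopologicalSpace (Cp C X cond) := inferInstanceAs (TopologicalSpace (cpl C X cond))
instance : IsTopologicalGroup (Cp C X cond) := inferInstanceAs (IsTopologicalGroup (cpl C X cond))
instance : T2Space (Cp C X cond) := inferInstanceAs (T2Space (cpl C X cond))
instance : TotallyDisconnectedSpace (Cp C X cond) :=
  inferInstanceAs (TotallyDisconnectedSpace (cpl C X cond))
instance : CompactSpace (Cp C X cond) := by
  have h : IsCompact ((cpl C X cond : Subgroup ((i : Ix C X cond) → FQ i)) :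
      Set ((i : Ix C X cond) → FQ i)) :=
    (Subgroup.isClosed_topologicalClosure _).isCompact
  exact isCompact_iff_compactSpace.mp h

/-- The projection. -/
def pr (i : Ix C X cond) : Cp C X cond →* FQ i where
  toFun g := g.1 i
  map_one' := rfl
  map_mul' _ _ := rfl

theorem continuous_pr (i : Ix C X cond) : Continuous (pr i : Cp C X cond → FQ i) :=
  (continuous_apply i).comp continuous_subtype_val

/-- The image of the free group. -/
def jm (w : FreeGroup X) : Cp C X cond :=
  ⟨jmap C X cond w, Subgroup.le_topologicalClosure _ ⟨w, rfl⟩⟩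

theorem pr_jm (i : Ix C X cond) (w : FreeGroup X) : pr i (jm w) = qmk i w := rfl

/-- The generators. -/
def gen (x : X) : Cp C X cond := jm (FreeGroup.of x)

/-- Every open set containing a point meets the image of the free group. -/
theorem dense_jm (O : Set (Cp C X cond)) (hO : IsOpen O) (g : Cp C X cond) (hg : g ∈ O) :
    ∃ w : FreeGroup X, jm w ∈ O := by
  obtain ⟨O', hO', rfl⟩ := isOpen_induced_iff.mp hO
  have h1 : g.1 ∈ closure ((jmap C X cond).range : Set ((i : Ix C X cond) → FQ i)) := g.2
  obtain ⟨y, hy1, ⟨w, rfl⟩⟩ := mem_closure_iff.mp h1 O' hO' hg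
  exact ⟨w, hy1⟩

theorem jm_mem_closure (w : FreeGroup X) :
    (jm w : Cp C X cond) ∈ Subgroup.closure (Set.range (gen : X → Cp C X cond)) := by
  let jh : FreeGroup X →* Cp C X cond :=
    { toFun := jm
      map_one' := by apply Subtype.ext; exact map_one (jmap C X cond)
      map_mul' := fun a b => by apply Subtype.ext; exact map_mul (jmap C X cond) a b }
  have h1 : w ∈ Subgroup.closure (Set.range (FreeGroup.of : X → FreeGroup X)) := by
    rw [FreeGroup.closure_range_of]; exact Subgroup.mem_top w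
  have h2 : jh w ∈ (Subgroup.closure (Set.range (FreeGroup.of : X → FreeGroup X))).map jh :=
    ⟨w, h1, rfl⟩
  rw [MonoidHom.map_closure, ← Set.range_comp] at h2
  exact h2

theorem topGen_gen : TopGen (gen : X → Cp C X cond) := by
  intro U
  rw [eq_top_iff]
  intro g _
  have h1 : IsOpen ((fun z => g * z) '' (U.1 : Set (Cp C X cond))) :=
    (isOpenMap_mul_left g) _ U.2.2
  obtain ⟨w, u, hu, hw⟩ := dense_jm _ h1 g ⟨1, U.1.one_mem, mul_one g⟩
  have h2 : g = jm w * u⁻¹ := by
    have h3 : g * u = jm w := hw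
    rw [← h3]; group
  rw [h2]
  apply Subgroup.mul_mem
  · exact (le_sup_left : _ ≤ Subgroup.closure (Set.range gen) ⊔ U.1) (jm_mem_closure w)
  · exact (le_sup_right : _ ≤ Subgroup.closure (Set.range gen) ⊔ U.1) (U.1.inv_mem hu)

/-- Compatibility. -/
theorem pr_compat (a b : Ix C X cond) (h : a.U ≤ b.U) (g : Cp C X cond) (ha : pr a g = 1) :
    pr b g = 1 := by
  have h1 : IsOpen ((pr a : Cp C X cond → FQ a) ⁻¹' {1} ∩
      (pr b : Cp C X cond → FQ b) ⁻¹' {pr b g}) :=
    ((isOpen_discrete _).preimage (continuous_pr a)).inter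
      ((isOpen_discrete _).preimage (continuous_pr b))
  obtain ⟨w, hw1, hw2⟩ := dense_jm _ h1 g ⟨ha, rfl⟩
  have h2 : pr a (jm w) = 1 := hw1
  have h3 : pr b (jm w) = pr b g := hw2
  rw [pr_jm, qmk_eq_one] at h2
  rw [← h3, pr_jm, qmk_eq_one]
  exact h h2

theorem pr_surj (i : Ix C X cond) : Surjective (pr i : Cp C X cond → FQ i) := by
  intro y
  obtain ⟨w, rfl⟩ := qmk_surj i y
  exact ⟨jm w, rfl⟩

/-- The condition holds at each quotient. -/
theorem con_pr (i : Ix C X cond) : cond (FQ i) (fun x => pr i (gen x)) := i.con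

/-- Binary intersections. -/
theorem exists_inf (hC : IsPseudovariety C) (hcond : CondOK X cond) (a b : Ix C X cond) :
    ∃ c : Ix C X cond, c.U ≤ a.U ∧ c.U ≤ b.U := by
  let f : FreeGroup X →* FQ a × FQ b := (qmk a).prod (qmk b)
  have hker : f.ker = a.U ⊓ b.U := by
    ext w
    rw [MonoidHom.mem_ker, Subgroup.mem_inf, ← qmk_eq_one, ← qmk_eq_one]
    change (qmk a w, qmk b w) = (1, 1) ↔ _
    rw [Prod.mk.injEq]
  have hCp : C (FQ a × FQ b) := hC.prod _ _ a.mem b.mem
  have hCr : C f.range := hC.sub _ f.range hCp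
  let e := QuotientGroup.quotientKerEquivRange f
  have hCq : C (FreeGroup X ⧸ f.ker) :=
    hC.image f.range (FreeGroup X ⧸ f.ker) e.symm.toMonoidHom e.symm.surjective hCr
  have hfin : Finite (FreeGroup X ⧸ f.ker) := hC.fin _ hCq
  refine ⟨⟨f.ker, inferInstance, hCq, hfin, ?_⟩, ?_, ?_⟩
  · apply hcond.inj (FreeGroup X ⧸ f.ker) (FQ a × FQ b) (QuotientGroup.kerLift f) _
      (QuotientGroup.kerLift_injective f)
    exact hcond.prod (FQ a) (FQ b) _ _ (con_pr a) (con_pr b)
  · change f.ker ≤ a.U
    rw [hker]; exact inf_le_left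
  · change f.ker ≤ b.U
    rw [hker]; exact inf_le_right

theorem exists_top (hC : IsPseudovariety C) (hcond : CondOK X cond) (hne : ∃ (A : Type) (_ : Group A), C A) :
    Nonempty (Ix C X cond) := by
  obtain ⟨A, hA, hCA⟩ := hne
  have hss : Subsingleton (FreeGroup X ⧸ (⊤ : Subgroup (FreeGroup X))) :=
    QuotientGroup.subsingleton_quotient_top
  have h1 : C (FreeGroup X ⧸ (⊤ : Subgroup (FreeGroup X))) := by
    apply hC.image A _ (1 : A →* FreeGroup X ⧸ (⊤ : Subgroup (FreeGroup X))) _ hCA
    intro y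
    exact ⟨1, Subsingleton.elim _ _⟩
  refine ⟨⟨⊤, inferInstance, h1, hC.fin _ h1, ?_⟩⟩
  have h2 : (fun x : X => (QuotientGroup.mk (FreeGroup.of x) :
      FreeGroup X ⧸ (⊤ : Subgroup (FreeGroup X)))) = fun _ => 1 := by
    funext x; exact Subsingleton.elim _ _
  rw [h2]
  exact hcond.one _

theorem exists_lower (hC : IsPseudovariety C) (hcond : CondOK X cond)
    (hne : ∃ (A : Type) (_ : Group A), C A) (I : Finset (Ix C X cond)) :
    ∃ c : Ix C X cond, ∀ i ∈ I, c.U ≤ i.U := by
  classical
  induction I using Finset.induction_on with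
  | empty =>
    obtain ⟨c⟩ := exists_top hC hcond hne
    exact ⟨c, by simp⟩
  | insert a I _ ih =>
    obtain ⟨c, hc⟩ := ih
    obtain ⟨d, hd1, hd2⟩ := exists_inf hC hcond a c
    refine ⟨d, ?_⟩
    intro i hi
    rcases Finset.mem_insert.mp hi with h1 | h1
    · rw [h1]; exact hd1
    · exact le_trans hd2 (hc i h1)

/-- Open subgroups contain the kernel of a projection. -/
theorem open_sub (hC : IsPseudovariety C) (hcond : CondOK X cond)
    (hne : ∃ (A : Type) (_ : Group A), C A) (V : Subgroup (Cp C X cond))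
    (hV : IsOpen (V : Set (Cp C X cond))) :
    ∃ i : Ix C X cond, ∀ g : Cp C X cond, pr i g = 1 → g ∈ V := by
  obtain ⟨O, hO, hOV⟩ := isOpen_induced_iff.mp hV
  have hmem : ∀ g : Cp C X cond, g.1 ∈ O ↔ g ∈ V := fun g => Set.ext_iff.mp hOV g
  have h1 : (1 : (i : Ix C X cond) → FQ i) ∈ O := (hmem 1).mpr V.one_mem
  rw [isOpen_pi_iff] at hO
  obtain ⟨I, u, hu, hIO⟩ := hO 1 h1
  obtain ⟨c, hc⟩ := exists_lower hC hcond hne I
  refine ⟨c, ?_⟩
  intro g hg
  have h2 : g.1 ∈ O := by
    apply hIO
    intro i hi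
    have h3 : pr i g = 1 := pr_compat c i (hc i hi) g hg
    change pr i g ∈ u i
    rw [h3]
    exact (hu i hi).2
  exact (hmem g).mp h2

/-- Factorisation of a homomorphism with open kernel. -/
theorem factor (hC : IsPseudovariety C) (hcond : CondOK X cond)
    (hne : ∃ (A : Type) (_ : Group A), C A) {A : Type} [Group A] (φ : CH (Cp C X cond) A) :
    ∃ (i : Ix C X cond) (ρ : FQ i →* A), ∀ g, ρ (pr i g) = φ.1 g := by
  obtain ⟨i, hi⟩ := open_sub hC hcond hne φ.1.ker φ.2
  have h1 : (pr i).ker ≤ φ.1.ker := fun g hg => hi g hg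
  refine ⟨i, (QuotientGroup.lift (pr i).ker φ.1 h1).comp
    (QuotientGroup.quotientKerEquivOfSurjective (pr i) (pr_surj i)).symm.toMonoidHom, ?_⟩
  intro g
  have h2 : (QuotientGroup.quotientKerEquivOfSurjective (pr i) (pr_surj i)).symm (pr i g) =
      QuotientGroup.mk g := by
    rw [MulEquiv.symm_apply_eq]
    rfl
  change QuotientGroup.lift (pr i).ker φ.1 h1
    ((QuotientGroup.quotientKerEquivOfSurjective (pr i) (pr_surj i)).symm (pr i g)) = φ.1 g
  rw [h2]
  rfl

theorem isPro_Cp (hC : IsPseudovariety C) (hcond : CondOK X cond)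
    (hne : ∃ (A : Type) (_ : Group A), C A) : IsPro C (Cp C X cond) := by
  intro V _ hV
  obtain ⟨i, ρ, hρ⟩ := factor hC hcond hne (⟨QuotientGroup.mk' V, by
    rw [QuotientGroup.ker_mk']; exact hV⟩ : CH (Cp C X cond) (Cp C X cond ⧸ V))
  apply hC.image (FQ i) _ ρ _ i.mem
  intro y
  obtain ⟨g, rfl⟩ := QuotientGroup.mk'_surjective V y
  exact ⟨pr i g, hρ g⟩

theorem cond_of_hom (hC : IsPseudovariety C) (hcond : CondOK X cond)
    (hne : ∃ (A : Type) (_ : Group A), C A) {A : Type} [Group A] [Finite A]
    (φ : CH (Cp C X cond) A) : cond A (fun x => φ.1 (gen x)) := by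
  obtain ⟨i, ρ, hρ⟩ := factor hC hcond hne φ
  have h1 := hcond.map (FQ i) A ρ _ (con_pr i)
  have h2 : (ρ ∘ fun x => pr i (gen x)) = fun x => φ.1 (gen x) := by
    funext x; exact hρ (gen x)
  rw [h2] at h1
  exact h1

theorem hom_of_cond (hC : IsPseudovariety C) (hcond : CondOK X cond)
    {A : Type} [Group A] (hA : C A) (t : X → A) (ht : cond A t) :
    ∃ φ : CH (Cp C X cond) A, ∀ x, φ.1 (gen x) = t x := by
  have hfA : Finite A := hC.fin A hA
  let f : FreeGroup X →* A := FreeGroup.lift t
  have hCr : C f.range := hC.sub _ f.range hA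
  let e := QuotientGroup.quotientKerEquivRange f
  have hCq : C (FreeGroup X ⧸ f.ker) :=
    hC.image f.range (FreeGroup X ⧸ f.ker) e.symm.toMonoidHom e.symm.surjective hCr
  have hfin : Finite (FreeGroup X ⧸ f.ker) := hC.fin _ hCq
  have hcon : cond (FreeGroup X ⧸ f.ker) (fun x => QuotientGroup.mk (FreeGroup.of x)) := by
    apply hcond.inj (FreeGroup X ⧸ f.ker) A (QuotientGroup.kerLift f) _
      (QuotientGroup.kerLift_injective f)
    have h2 : ((QuotientGroup.kerLift f) ∘ fun x => (QuotientGroup.mk (FreeGroup.of x) :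
        FreeGroup X ⧸ f.ker)) = t := by
      funext x
      change QuotientGroup.kerLift f (QuotientGroup.mk (FreeGroup.of x)) = t x
      rw [QuotientGroup.kerLift_mk]
      exact FreeGroup.lift_apply_of
    rw [h2]; exact ht
  let i : Ix C X cond := ⟨f.ker, inferInstance, hCq, hfin, hcon⟩
  refine ⟨⟨(liftFQ i f le_rfl).comp (pr i), ?_⟩, ?_⟩
  · have h1 : IsOpen ((pr i : Cp C X cond → FQ i) ⁻¹' {1}) :=
      (isOpen_discrete _).preimage (continuous_pr i)
    apply Subgroup.isOpen_mono (H₁ := (pr i).ker)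
    · intro g hg
      rw [MonoidHom.mem_ker] at hg ⊢
      rw [MonoidHom.comp_apply, hg, map_one]
    · exact h1
  · intro x
    change f (FreeGroup.of x) = t x
    exact FreeGroup.lift_apply_of

/-- The homomorphisms from the completion into a member of `C`. -/
theorem hh_Cp (hC : IsPseudovariety C) (hcond : CondOK X cond)
    (hne : ∃ (A : Type) (_ : Group A), C A) {A : Type} [Group A] (hA : C A) :
    hh (Cp C X cond) A = Nat.card {t : X → A // cond A t} := by
  have hfA : Finite A := hC.fin A hA
  choose H hH using fun (t : {t : X → A // cond A t}) => hom_of_cond hC hcond hA t.1 t.2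
  apply Nat.card_congr
  exact
    { toFun := fun φ => ⟨fun x => φ.1 (gen x), cond_of_hom hC hcond hne φ⟩
      invFun := fun t => H t
      left_inv := fun φ => by
        apply ch_eq topGen_gen
        intro x
        exact hH ⟨fun x => φ.1 (gen x), cond_of_hom hC hcond hne φ⟩ x
      right_inv := fun t => by
        apply Subtype.ext
        funext x
        exact hH t x }

/-- Extension of a tuple to a pro-`C` group. -/
theorem ext_Cp (hC : IsPseudovariety C) (hcond : CondOK X cond)
    {K : Type} [Group K] [TopologicalSpace K] [IsTopologicalGroup K] [CompactSpace K]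
    [T2Space K] [TotallyDisconnectedSpace K] (hK : IsPro C K) (f : X → K)
    (hf : ∀ V : ON K, cond (K ⧸ V.1) (fun x => QuotientGroup.mk (f x))) :
    ∃! φ : ContinuousMonoidHom (Cp C X cond) K, ∀ x, φ (gen x) = f x := by
  apply ext_unique topGen_gen
  intro V
  have hV : C (K ⧸ V.1) := hK V.1 V.2.2
  exact hom_of_cond hC hcond hV _ (hf V)

end Pool.Agent.H50.PSV
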