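import Mathlib

set_option autoImplicit false

namespace Pool.Agent.H50.PSV

open Function Subgroup MulOpposite Pointwise

/-- The conjugate `n K n⁻¹`. -/
def cj {A : Type} [Group A] (n : A) (K : Subgroup A) : Subgroup A :=
  K.comap (MulAut.conj n⁻¹).toMonoidHom

theorem mem_cj {A : Type} [Group A] (n : A) (K : Subgroup A) (x : A) :
    x ∈ cj n K ↔ n⁻¹ * x * n ∈ K := by
  unfold cj
  rw [Subgroup.mem_comap]
  simp

theorem cj_one {A : Type} [Group A] (K : Subgroup A) : cj 1 K = K := by
  ext x; rw [mem_cj]; simp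

theorem cj_mul {A : Type} [Group A] (a b : A) (K : Subgroup A) :
    cj (a * b) K = cj a (cj b K) := by
  ext x
  rw [mem_cj, mem_cj, mem_cj]
  have : (a * b)⁻¹ * x * (a * b) = b⁻¹ * (a⁻¹ * x * a) * b := by group
  rw [this]

theorem cj_mem_self {A : Type} [Group A] {a : A} {K : Subgroup A} (h : a ∈ K) : cj a K = K := by
  ext x
  rw [mem_cj]
  constructor
  · intro h1
    have h2 := K.mul_mem (K.mul_mem h h1) (K.inv_mem h)
    have : a * (a⁻¹ * x * a) * a⁻¹ = x := by group
    rwa [this] at h2
  · intro h1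
    exact K.mul_mem (K.mul_mem (K.inv_mem h) h1) h

theorem card_cj {A : Type} [Group A] (a : A) (K : Subgroup A) :
    Nat.card (cj a K) = Nat.card K := by
  apply Nat.card_congr
  exact
    { toFun := fun x => ⟨a⁻¹ * x.1 * a, (mem_cj a K x.1).mp x.2⟩
      invFun := fun x => ⟨a * x.1 * a⁻¹, by
        rw [mem_cj]
        have : a⁻¹ * (a * x.1 * a⁻¹) * a = x.1 := by group
        rw [this]; exact x.2⟩
      left_inv := fun x => by
        apply Subtype.ext
        change a * (a⁻¹ * x.1 * a) * a⁻¹ = x.1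
        group
      right_inv := fun x => by
        apply Subtype.ext
        change a⁻¹ * (a * x.1 * a⁻¹) * a = x.1
        group }

/-- The class of a transversal. -/
noncomputable def qd {B : Type} [Group B] (N : Subgroup B) [IsMulCommutative N] [N.FiniteIndex]
    (T : N.LeftTransversal) : N.QuotientDiff := Quotient.mk'' T

/-- Complements of an abelian normal subgroup of coprime order and index are conjugate. -/
theorem conj_of_abelian {B : Type} [Group B] [Finite B] (N : Subgroup B) [N.Normal]
    [IsMulCommutative N] (hc : Nat.Coprime (Nat.card N) N.index) (K1 K2 : Subgroup B)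
    (h1 : IsComplement' N K1) (h2 : IsComplement' N K2) : ∃ n ∈ N, K2 = cj n K1 := by
  have key : ∀ K : Subgroup B, IsComplement' N K → ∃ α : N.QuotientDiff,
      MulAction.stabilizer B α = K := by
    intro K hK
    let T : N.LeftTransversal := ⟨(K : Set B), hK.symm⟩
    refine ⟨qd N T, ?_⟩
    have hle : K ≤ MulAction.stabilizer B (qd N T) := by
      intro g hg
      rw [MulAction.mem_stabilizer_iff]
      have hT : (op g⁻¹ : Bᵐᵒᵖ) • T = T := by
        apply Subtype.ext
        change (op g⁻¹ : Bᵐᵒᵖ) • (K : Set B) = (K : Set B)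
        ext x
        rw [Set.mem_smul_set]
        constructor
        · rintro ⟨y, hy, rfl⟩
          change y * g⁻¹ ∈ K
          exact K.mul_mem hy (K.inv_mem hg)
        · intro hx
          refine ⟨x * g, K.mul_mem hx hg, ?_⟩
          change x * g * g⁻¹ = x
          group
      change qd N ((op g⁻¹ : Bᵐᵒᵖ) • T) = qd N T
      rw [hT]
    have hs := Subgroup.isComplement'_stabilizer_of_coprime (α := qd N T) hc
    have c1 := hK.card_mul_card
    have c2 := hs.card_mul_card
    have hpos : 0 < Nat.card N := Nat.card_pos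
    have c3 : Nat.card (MulAction.stabilizer B (qd N T)) = Nat.card K := by
      rw [← c1] at c2
      exact Nat.eq_of_mul_eq_mul_left hpos c2
    exact (Subgroup.eq_of_le_of_card_ge hle c3.le).symm
  obtain ⟨α1, e1⟩ := key K1 h1
  obtain ⟨α2, e2⟩ := key K2 h2
  obtain ⟨h, hh⟩ := Subgroup.exists_smul_eq hc α1 α2
  refine ⟨h, h.2, ?_⟩
  rw [← e2, ← hh, ← e1]
  ext x
  rw [mem_cj, MulAction.mem_stabilizer_iff, MulAction.mem_stabilizer_iff]
  have e3 : (h • α1 : N.QuotientDiff) = (h : B) • α1 := rfl
  rw [e3]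
  constructor
  · intro hx
    rw [mul_smul, mul_smul, hx, inv_smul_smul]
  · intro hx
    rw [mul_smul, mul_smul, inv_smul_eq_iff] at hx
    exact hx

/-- A finite group with a normal subgroup of order prime to `p` and quotient a `p`-group:
complements exist and are conjugate. -/
theorem compl_sylow {B : Type} [Group B] [Finite B] (p : ℕ) [Fact p.Prime] (N : Subgroup B)
    [N.Normal] (hN : Nat.Coprime p (Nat.card N)) (hi : ∃ m : ℕ, N.index = p ^ m) :
    (∃ K : Subgroup B, IsComplement' N K) ∧
      ∀ K1 K2 : Subgroup B, IsComplement' N K1 → IsComplement' N K2 → ∃ n ∈ N, K2 = cj n K1 := by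
  obtain ⟨m, hm⟩ := hi
  have hcard := N.card_mul_index
  have hfac : (Nat.card B).factorization p = m := by
    rw [← hcard, hm, Nat.factorization_mul (Nat.card_pos).ne' (pow_pos (Fact.out : p.Prime).pos m).ne']
    rw [Finsupp.add_apply, Nat.factorization_eq_zero_of_not_dvd, (Fact.out : p.Prime).factorization_pow]
    · simp
    · exact (Nat.Prime.coprime_iff_not_dvd Fact.out).mp hN
  have hcop : Nat.Coprime (Nat.card N) N.index := by
    rw [hm]
    exact Nat.Coprime.pow_right m hN.symm
  refine ⟨Subgroup.exists_right_complement'_of_coprime hcop, ?_⟩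
  have key : ∀ K : Subgroup B, IsComplement' N K → ∃ S : Sylow p B, (S : Subgroup B) = K := by
    intro K hK
    have c1 := hK.card_mul_card
    have c2 : Nat.card K = p ^ m := by
      rw [← hcard, hm] at c1
      exact Nat.eq_of_mul_eq_mul_left Nat.card_pos c1
    refine ⟨Sylow.ofCard K ?_, rfl⟩
    rw [hfac, c2]
  intro K1 K2 h1 h2
  obtain ⟨S1, rfl⟩ := key K1 h1
  obtain ⟨S2, rfl⟩ := key K2 h2
  obtain ⟨b, hb⟩ := MulAction.exists_smul_eq B S1 S2
  have hbK : (S2 : Subgroup B) = cj b (S1 : Subgroup B) := by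
    rw [← hb]
    ext x
    rw [mem_cj, Sylow.smul_def]
    change x ∈ (MulAut.conj b) • (S1 : Subgroup B) ↔ _
    rw [Subgroup.mem_pointwise_smul_iff_inv_smul_mem]
    simp [mul_assoc]
  obtain ⟨⟨n, k⟩, hnk⟩ := h1.2 b
  refine ⟨n.1, n.2, ?_⟩
  change n.1 * k.1 = b at hnk
  rw [hbK, ← hnk, cj_mul, cj_mem_self k.2]

end Pool.Agent.H50.PSV
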