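import Pool.Agent.H50.PSV.Count
import Pool.Agent.H21.Prof.Setup

set_option autoImplicit false

namespace Pool.Agent.H50.PSV

open Function Pool.Agent.H21.Prof

variable {G : Type} [Group G] [TopologicalSpace G] [IsTopologicalGroup G]

/-- Topological generation by a family. -/
def TopGen {X : Type} (t : X → G) : Prop :=
  ∀ U : ON G, Subgroup.closure (Set.range t) ⊔ U.1 = ⊤

theorem ch_eq {X : Type} {t : X → G} (ht : TopGen t)
    {A : Type} [Group A] {φ ψ : CH G A} (h : ∀ i, φ.1 (t i) = ψ.1 (t i)) : φ = ψ := by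
  let U : ON G := ⟨φ.1.ker ⊓ ψ.1.ker, Subgroup.normal_inf_normal _ _, by
    rw [Subgroup.coe_inf]; exact φ.2.inter ψ.2⟩
  have h1 : Subgroup.closure (Set.range t) ⊔ U.1 ≤ φ.1.eqLocus ψ.1 := by
    apply sup_le
    · rw [Subgroup.closure_le]
      rintro x ⟨i, rfl⟩
      exact h i
    · intro x hx
      obtain ⟨hx1, hx2⟩ := Subgroup.mem_inf.mp hx
      rw [MonoidHom.mem_ker] at hx1 hx2
      change φ.1 x = ψ.1 x
      rw [hx1, hx2]
  rw [ht U] at h1
  apply ch_ext
  intro g
  exact h1 (Subgroup.mem_top g)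

/-- Two continuous homomorphisms into a profinite group which agree on a generating family. -/
theorem cmh_eq {X : Type} {t : X → G} (ht : TopGen t)
    {K : Type} [Group K] [TopologicalSpace K] [IsTopologicalGroup K] [CompactSpace K]
    [T2Space K] [TotallyDisconnectedSpace K] {φ ψ : ContinuousMonoidHom G K}
    (h : ∀ i, φ (t i) = ψ (t i)) : φ = ψ := by
  apply ContinuousMonoidHom.ext
  intro g
  by_contra hne
  have h1 : (φ g)⁻¹ * ψ g ≠ 1 := fun h => hne (inv_mul_eq_one.mp h)
  obtain ⟨N, hN⟩ := ProfiniteGrp.exist_openNormalSubgroup_sub_open_nhds_of_one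
    (G := K) (U := {(φ g)⁻¹ * ψ g}ᶜ) isOpen_compl_singleton (by
      intro h; exact h1 (Set.mem_singleton_iff.mp h).symm)
  have key : ∀ χ : ContinuousMonoidHom G K,
      IsOpen ((((QuotientGroup.mk' N.toSubgroup).comp χ.toMonoidHom).ker : Subgroup G) : Set G) := by
    intro χ
    have e : (((QuotientGroup.mk' N.toSubgroup).comp χ.toMonoidHom).ker : Set G) =
        (fun x => χ x) ⁻¹' (N.toSubgroup : Set K) := by
      ext x
      change (QuotientGroup.mk' N.toSubgroup) (χ x) = 1 ↔ _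
      rw [QuotientGroup.mk'_apply, QuotientGroup.eq_one_iff]
      rfl
    rw [e]
    exact N.isOpen'.preimage χ.continuous_toFun
  have h2 : (⟨_, key φ⟩ : CH G (K ⧸ N.toSubgroup)) = ⟨_, key ψ⟩ := by
    apply ch_eq ht
    intro i
    change (QuotientGroup.mk (φ (t i)) : K ⧸ N.toSubgroup) = QuotientGroup.mk (ψ (t i))
    rw [h i]
  have h3 : (QuotientGroup.mk (φ g) : K ⧸ N.toSubgroup) = QuotientGroup.mk (ψ g) :=
    congrArg (fun χ : CH G (K ⧸ N.toSubgroup) => χ.1 g) h2
  rw [QuotientGroup.eq] at h3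
  exact hN h3 rfl

/-- Extension of a compatible choice of values. -/
theorem ext_exists {X : Type} {t : X → G} (ht : TopGen t)
    {K : Type} [Group K] [TopologicalSpace K] [IsTopologicalGroup K] [CompactSpace K]
    [T2Space K] [TotallyDisconnectedSpace K] (f : X → K)
    (hex : ∀ V : ON K, ∃ φ : CH G (K ⧸ V.1), ∀ i, φ.1 (t i) = QuotientGroup.mk (f i)) :
    ∃ φ : ContinuousMonoidHom G K, ∀ i, φ (t i) = f i := by
  choose Φ hΦ using hex
  have hcomp : ∀ (V W : ON K) (_ : V.1 ≤ W.1) (g : G) (x : K),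
      (Φ V).1 g = QuotientGroup.mk x → (Φ W).1 g = QuotientGroup.mk x := by
    intro V W hVW g x hx
    let ρ : K ⧸ V.1 →* K ⧸ W.1 := QuotientGroup.map V.1 W.1 (MonoidHom.id K) hVW
    have h1 : Φ W = cmap ρ (Φ V) := by
      apply ch_eq ht
      intro i
      rw [hΦ W i, cmap_apply, hΦ V i]
      rfl
    rw [h1, cmap_apply, hx]
    rfl
  have hsep : ∀ x y : K, (∀ V : ON K, (QuotientGroup.mk x : K ⧸ V.1) = QuotientGroup.mk y) →
      x = y := by
    intro x y hxy
    by_contra hne
    have h1 : x⁻¹ * y ≠ 1 := fun h => hne (inv_mul_eq_one.mp h)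
    obtain ⟨N, hN⟩ := ProfiniteGrp.exist_openNormalSubgroup_sub_open_nhds_of_one
      (G := K) (U := {x⁻¹ * y}ᶜ) isOpen_compl_singleton (by
        intro h; exact h1 (Set.mem_singleton_iff.mp h).symm)
    have h2 := hxy ⟨N.toSubgroup, N.isNormal', N.isOpen'⟩
    rw [QuotientGroup.eq] at h2
    exact hN h2 rfl
  have hclosed : ∀ (g : G) (V : ON K), IsClosed {x : K | (Φ V).1 g = QuotientGroup.mk x} := by
    intro g V
    have : DiscreteTopology (K ⧸ V.1) := QuotientGroup.discreteTopology V.2.2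
    have e : {x : K | (Φ V).1 g = QuotientGroup.mk x} =
        (fun x : K => (QuotientGroup.mk x : K ⧸ V.1)) ⁻¹' {(Φ V).1 g} := by
      ext x
      change (Φ V).1 g = QuotientGroup.mk x ↔ QuotientGroup.mk x = (Φ V).1 g
      exact eq_comm
    rw [e]
    exact (isClosed_discrete ({(Φ V).1 g} : Set (K ⧸ V.1))).preimage
      (continuous_quot_mk : Continuous (fun x : K => (QuotientGroup.mk x : K ⧸ V.1)))
  have hpt : ∀ g : G, ∃ x : K, ∀ V : ON K, (Φ V).1 g = QuotientGroup.mk x := by
    intro g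
    have hne : Nonempty (ON K) := ⟨⟨⊤, inferInstance, isOpen_univ⟩⟩
    have key := IsCompact.nonempty_iInter_of_directed_nonempty_isCompact_isClosed
      (fun V : ON K => {x : K | (Φ V).1 g = QuotientGroup.mk x}) ?_ ?_ ?_ ?_
    · obtain ⟨x, hx⟩ := key
      exact ⟨x, fun V => (Set.mem_iInter.mp hx) V⟩
    · intro V W
      refine ⟨V.inf W, ?_, ?_⟩
      · intro x hx
        exact hcomp (V.inf W) V inf_le_left g x hx
      · intro x hx
        exact hcomp (V.inf W) W inf_le_right g x hx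
    · intro V
      obtain ⟨x, hx⟩ := QuotientGroup.mk_surjective ((Φ V).1 g)
      exact ⟨x, hx.symm⟩
    · intro V
      exact (hclosed g V).isCompact
    · intro V
      exact hclosed g V
  choose F hF using hpt
  have hF_one : F 1 = 1 := by
    apply hsep
    intro V
    rw [← hF 1 V, map_one]
    rfl
  have hF_mul : ∀ a b, F (a * b) = F a * F b := by
    intro a b
    apply hsep
    intro V
    rw [← hF (a * b) V, map_mul, hF a V, hF b V]
    rfl
  let Fh : G →* K := { toFun := F, map_one' := hF_one, map_mul' := hF_mul }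
  have hcont : Continuous Fh := by
    apply continuous_of_continuousAt_one Fh
    rw [ContinuousAt, map_one]
    intro O hO
    obtain ⟨O', hO', hO'open, h1O'⟩ := mem_nhds_iff.mp hO
    obtain ⟨N, hN⟩ := ProfiniteGrp.exist_openNormalSubgroup_sub_open_nhds_of_one hO'open h1O'
    let V : ON K := ⟨N.toSubgroup, N.isNormal', N.isOpen'⟩
    have hk : ((Φ V).1.ker : Set G) ∈ nhds (1 : G) :=
      (Φ V).2.mem_nhds (Subgroup.one_mem _)
    rw [Filter.mem_map]
    refine Filter.mem_of_superset hk ?_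
    intro g hg
    apply hO'
    apply hN
    have h1 : (Φ V).1 g = 1 := hg
    rw [hF g V] at h1
    exact (QuotientGroup.eq_one_iff (F g)).mp h1
  have hval : ∀ i, F (t i) = f i := by
    intro i
    apply hsep
    intro V
    rw [← hF (t i) V, hΦ V i]
  exact ⟨⟨Fh, hcont⟩, fun i => hval i⟩

theorem ext_unique {X : Type} {t : X → G} (ht : TopGen t)
    {K : Type} [Group K] [TopologicalSpace K] [IsTopologicalGroup K] [CompactSpace K]
    [T2Space K] [TotallyDisconnectedSpace K] (f : X → K)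
    (hex : ∀ V : ON K, ∃ φ : CH G (K ⧸ V.1), ∀ i, φ.1 (t i) = QuotientGroup.mk (f i)) :
    ∃! φ : ContinuousMonoidHom G K, ∀ i, φ (t i) = f i := by
  obtain ⟨φ, hφ⟩ := ext_exists ht f hex
  refine ⟨φ, hφ, ?_⟩
  intro ψ hψ
  apply cmh_eq ht
  intro i
  rw [hψ i, hφ i]

end Pool.Agent.H50.PSV
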