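import Pool.Agent.H50.PSV.Conj

set_option autoImplicit false

namespace Pool.Agent.H50.PSV

open Function Subgroup

/-- The subgroup generated by the conjugates of `y` under the powers of `x`. -/
def conjSub {A : Type} [Group A] (x y : A) : Subgroup A :=
  Subgroup.closure (Set.range (fun i : ℤ => x ^ i * y * (x ^ i)⁻¹))

section
variable {A Q : Type} [Group A] [Group Q]

theorem mem_conjSub (x y : A) : y ∈ conjSub x y := by
  apply Subgroup.subset_closure
  exact ⟨0, by simp⟩

theorem map_conjSub (π : A →* Q) (x y : A) :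
    (conjSub x y).map π = conjSub (π x) (π y) := by
  unfold conjSub
  rw [MonoidHom.map_closure, ← Set.range_comp]
  congr 2
  funext i
  simp

theorem conjSub_le {x y : A} {K : Subgroup A} (hx : cj x K = K) (hy : y ∈ K) :
    conjSub x y ≤ K := by
  have h1 : ∀ i : ℤ, cj (x ^ i) K = K := by
    have hinv : cj x⁻¹ K = K := by
      have := cj_mul x⁻¹ x K
      rw [inv_mul_cancel, cj_one, hx] at this
      exact this.symm
    intro i
    induction i using Int.induction_on with
    | zero => simp [cj_one]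
    | succ n ih => rw [zpow_add_one, cj_mul, hx, ih]
    | pred n ih => rw [zpow_sub_one, cj_mul, hinv, ih]
  unfold conjSub
  rw [Subgroup.closure_le]
  rintro z ⟨i, rfl⟩
  change x ^ i * y * (x ^ i)⁻¹ ∈ K
  rw [← h1 i, mem_cj]
  have : (x ^ i)⁻¹ * (x ^ i * y * (x ^ i)⁻¹) * x ^ i = y := by group
  rw [this]
  exact hy

theorem cj_conjSub (x y : A) : cj x (conjSub x y) = conjSub x y := by
  have h1 : ∀ z : A, z ∈ conjSub x y → x⁻¹ * z * x ∈ conjSub x y := by
    intro z hz
    have h2 : (conjSub x y).map (MulAut.conj x⁻¹).toMonoidHom ≤ conjSub x y := by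
      unfold conjSub
      rw [MonoidHom.map_closure, Subgroup.closure_le]
      rintro w ⟨v, ⟨i, rfl⟩, rfl⟩
      apply Subgroup.subset_closure
      refine ⟨i - 1, ?_⟩
      simp only [MulEquiv.coe_toMonoidHom, MulAut.conj_apply]
      rw [zpow_sub_one]
      group
    have h3 := h2 ⟨z, hz, rfl⟩
    simpa using h3
  have h2 : ∀ z : A, z ∈ conjSub x y → x * z * x⁻¹ ∈ conjSub x y := by
    intro z hz
    have h2 : (conjSub x y).map (MulAut.conj x).toMonoidHom ≤ conjSub x y := by
      unfold conjSub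
      rw [MonoidHom.map_closure, Subgroup.closure_le]
      rintro w ⟨v, ⟨i, rfl⟩, rfl⟩
      apply Subgroup.subset_closure
      refine ⟨i + 1, ?_⟩
      simp only [MulEquiv.coe_toMonoidHom, MulAut.conj_apply]
      rw [zpow_add_one]
      group
    have h3 := h2 ⟨z, hz, rfl⟩
    simpa using h3
  ext z
  rw [mem_cj]
  constructor
  · intro hz
    have := h2 _ hz
    have e : x * (x⁻¹ * z * x) * x⁻¹ = z := by group
    rwa [e] at this
  · exact h1 z

/-- A map with fibres of constant size. -/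
theorem card_of_fibres {α β : Type} [Finite α] [Finite β] (f : α → β) (c : ℕ)
    (h : ∀ b, Nat.card {a // f a = b} = c) : Nat.card α = Nat.card β * c := by
  have := Fintype.ofFinite β
  rw [Nat.card_congr (Equiv.sigmaFiberEquiv f).symm, Nat.card_sigma,
    Finset.sum_congr rfl (fun b _ => h b)]
  simp

/-- The complements of the kernel over a subgroup of the image. -/
def Om (π : A →* Q) (Kb : Subgroup Q) : Set (Subgroup A) := {K | K ⊓ π.ker = ⊥ ∧ K.map π = Kb}

theorem cj_map (π : A →* Q) (x : A) (K : Subgroup A) : (cj x K).map π = cj (π x) (K.map π) := by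
  ext z
  rw [mem_cj]
  constructor
  · rintro ⟨w, hw, rfl⟩
    refine ⟨x⁻¹ * w * x, (mem_cj x K w).mp hw, ?_⟩
    simp
  · rintro ⟨w, hw, hwz⟩
    refine ⟨x * w * x⁻¹, ?_, ?_⟩
    · change x * w * x⁻¹ ∈ cj x K
      rw [mem_cj]
      have e : x⁻¹ * (x * w * x⁻¹) * x = w := by group
      rw [e]; exact hw
    · rw [map_mul, map_mul, map_inv, hwz]
      group

theorem cj_inf_ker (π : A →* Q) (x : A) (K : Subgroup A) (h : K ⊓ π.ker = ⊥) :
    cj x K ⊓ π.ker = ⊥ := by
  rw [eq_bot_iff] at h ⊢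
  intro z hz
  obtain ⟨h1, h2⟩ := Subgroup.mem_inf.mp hz
  rw [mem_cj] at h1
  have h3 : x⁻¹ * z * x ∈ π.ker := by
    rw [MonoidHom.mem_ker] at h2 ⊢
    rw [map_mul, map_mul, h2]
    simp
  have h4 := h (Subgroup.mem_inf.mpr ⟨h1, h3⟩)
  rw [Subgroup.mem_bot] at h4 ⊢
  have e : z = x * (x⁻¹ * z * x) * x⁻¹ := by group
  rw [e, h4]
  group

theorem cj_mem_Om (π : A →* Q) (Kb : Subgroup Q) (x : A) (hx : cj (π x) Kb = Kb)
    {K : Subgroup A} (hK : K ∈ Om π Kb) : cj x K ∈ Om π Kb := by
  refine ⟨cj_inf_ker π x K hK.1, ?_⟩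
  rw [cj_map, hK.2, hx]

/-- Pairs (element of a coset of the kernel, complement normalised by it): as many as
elements of the kernel. -/
theorem count_pairs [Finite A] (π : A →* Q) (hπ : Surjective π) (xb : Q) (Kb : Subgroup Q)
    (hx : cj xb Kb = Kb) (hne : (Om π Kb).Nonempty)
    (htr : ∀ K1 ∈ Om π Kb, ∀ K2 ∈ Om π Kb, ∃ n ∈ π.ker, K2 = cj n K1) :
    Nat.card {t : A × Subgroup A // π t.1 = xb ∧ t.2 ∈ Om π Kb ∧ cj t.1 t.2 = t.2} =
      Nat.card π.ker := by
  obtain ⟨K0, hK0⟩ := hne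
  obtain ⟨x0, hx0⟩ := hπ xb
  let C0 : Type := {n : A // n ∈ π.ker ∧ cj n K0 = K0}
  have hC0 : 0 < Nat.card C0 := by
    have : Nonempty C0 := ⟨⟨1, π.ker.one_mem, cj_one K0⟩⟩
    exact Nat.card_pos
  -- an element of the coset normalising a given complement
  have hex : ∀ K ∈ Om π Kb, ∃ x : A, π x = xb ∧ cj x K = K := by
    intro K hK
    have h1 : cj x0 K ∈ Om π Kb := cj_mem_Om π Kb x0 (by rw [hx0]; exact hx) hK
    obtain ⟨n, hn, hnK⟩ := htr (cj x0 K) h1 K hK
    refine ⟨n * x0, ?_, ?_⟩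
    · rw [map_mul, MonoidHom.mem_ker.mp hn, hx0, one_mul]
    · rw [cj_mul, ← hnK]
  have hker1 : ∀ n : A, n ∈ π.ker → cj (π n) Kb = Kb := by
    intro n hn
    rw [MonoidHom.mem_ker.mp hn, cj_one]
  let S : Type := {t : A × Subgroup A // π t.1 = xb ∧ t.2 ∈ Om π Kb ∧ cj t.1 t.2 = t.2}
  let T : Type := {t : A × A // π t.1 = xb ∧ t.2 ∈ π.ker ∧ cj t.1 (cj t.2 K0) = cj t.2 K0}
  have fS : Finite S := Subtype.finite
  have fT : Finite T := Subtype.finite
  have e1 : Nat.card T = Nat.card S * Nat.card C0 := by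
    apply card_of_fibres (fun t : T => (⟨(t.1.1, cj t.1.2 K0), t.2.1,
      cj_mem_Om π Kb t.1.2 (hker1 _ t.2.2.1) hK0, t.2.2.2⟩ : S))
    rintro ⟨⟨x, K⟩, hx1, hK, hxK⟩
    obtain ⟨n, hn, hnK⟩ := htr K0 hK0 K hK
    apply Nat.card_congr
    exact
      { toFun := fun t => ⟨n⁻¹ * t.1.1.2, π.ker.mul_mem (π.ker.inv_mem hn) t.1.2.2.1, by
          have h3 : cj t.1.1.2 K0 = K := congrArg (fun s : S => s.1.2) t.2
          rw [cj_mul, h3, hnK, ← cj_mul, inv_mul_cancel, cj_one]⟩
        invFun := fun m => ⟨⟨(x, n * m.1), hx1, π.ker.mul_mem hn m.2.1, by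
          change cj x (cj (n * m.1) K0) = cj (n * m.1) K0
          rw [cj_mul, m.2.2, ← hnK]; exact hxK⟩, by
          apply Subtype.ext
          apply Prod.ext
          · rfl
          · change cj (n * m.1) K0 = K
            rw [cj_mul, m.2.2, ← hnK]⟩
        left_inv := fun t => by
          apply Subtype.ext
          apply Subtype.ext
          apply Prod.ext
          · exact (congrArg (fun s : S => s.1.1) t.2).symm
          · change n * (n⁻¹ * t.1.1.2) = t.1.1.2
            group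
        right_inv := fun m => by
          apply Subtype.ext
          change n⁻¹ * (n * m.1) = m.1
          group }
  have e2 : Nat.card T = Nat.card π.ker * Nat.card C0 := by
    apply card_of_fibres (fun t : T => (⟨t.1.2, t.2.2.1⟩ : π.ker))
    rintro ⟨n, hn⟩
    obtain ⟨x1, hx1, hx1K⟩ := hex (cj n K0) (cj_mem_Om π Kb n (hker1 _ hn) hK0)
    have cinv : cj x1⁻¹ (cj n K0) = cj n K0 := by
      have := cj_mul x1⁻¹ x1 (cj n K0)
      rw [inv_mul_cancel, cj_one, hx1K] at this
      exact this.symm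
    apply Nat.card_congr
    exact
      { toFun := fun t => ⟨n⁻¹ * (x1⁻¹ * t.1.1.1) * n, by
          rw [MonoidHom.mem_ker]
          have h4 := MonoidHom.mem_ker.mp hn
          simp only [map_mul, map_inv, h4, hx1, t.1.2.1]
          group, by
          have h3 : t.1.1.2 = n := congrArg (fun s : π.ker => s.1) t.2
          have h5 := t.1.2.2.2
          rw [h3] at h5
          rw [cj_mul, cj_mul, cj_mul, h5, cinv, ← cj_mul, inv_mul_cancel, cj_one]⟩
        invFun := fun m => ⟨⟨(x1 * (n * m.1 * n⁻¹), n), by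
          change π (x1 * (n * m.1 * n⁻¹)) = xb
          have h4 := MonoidHom.mem_ker.mp m.2.1
          simp only [map_mul, map_inv, h4, hx1]
          group, hn, by
          change cj (x1 * (n * m.1 * n⁻¹)) (cj n K0) = cj n K0
          rw [cj_mul, ← cj_mul _ n K0]
          have e : n * m.1 * n⁻¹ * n = n * m.1 := by group
          rw [e, cj_mul, m.2.2, hx1K]⟩, rfl⟩
        left_inv := fun t => by
          apply Subtype.ext
          apply Subtype.ext
          apply Prod.ext
          · change x1 * (n * (n⁻¹ * (x1⁻¹ * t.1.1.1) * n) * n⁻¹) = t.1.1.1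
            group
          · exact (congrArg (fun s : π.ker => s.1) t.2).symm
        right_inv := fun m => by
          apply Subtype.ext
          change n⁻¹ * (x1⁻¹ * (x1 * (n * m.1 * n⁻¹))) * n = m.1
          group }
  rw [e2] at e1
  exact (Nat.eq_of_mul_eq_mul_right hC0 e1).symm

/-- Properties of orders. -/
structure GoodPi (Pi : ℕ → Prop) : Prop where
  one : Pi 1
  mul : ∀ a b, Pi a → Pi b → Pi (a * b)
  dvd : ∀ a b, a ∣ b → b ≠ 0 → Pi b → Pi a

theorem card_map_mul (π : A →* Q) (K : Subgroup A) :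
    Nat.card K = Nat.card (K.map π) * Nat.card (K ⊓ π.ker : Subgroup A) := by
  have h1 := Subgroup.card_mul_index (π.comp K.subtype).ker
  have h2 : Nat.card (π.comp K.subtype).ker = Nat.card (K ⊓ π.ker : Subgroup A) := by
    apply Nat.card_congr
    exact
      { toFun := fun x => ⟨x.1.1, x.1.2, x.2⟩
        invFun := fun x => ⟨⟨x.1, x.2.1⟩, x.2.2⟩
        left_inv := fun x => rfl
        right_inv := fun x => rfl }
  have h3 : (π.comp K.subtype).ker.index = Nat.card (K.map π) := by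
    rw [Subgroup.index_ker]
    have : (π.comp K.subtype).range = K.map π := by
      rw [MonoidHom.range_comp, Subgroup.range_subtype]
    rw [this]
  rw [← h1, h2, h3, mul_comm]

/-- All lifts are good when the kernel is good. -/
theorem lifts_all [Finite A] {Pi : ℕ → Prop} (hPi : GoodPi Pi) (π : A →* Q)
    (hN : Pi (Nat.card π.ker)) (x y : A) (h : Pi (Nat.card (conjSub (π x) (π y)))) :
    Pi (Nat.card (conjSub x y)) := by
  rw [card_map_mul π (conjSub x y), map_conjSub]
  apply hPi.mul _ _ h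
  exact hPi.dvd _ _ (Subgroup.card_dvd_of_le inf_le_right) (Nat.card_pos).ne' hN

/-- Count of the good lifts when the kernel is of coprime order. -/
theorem count2 [Finite A] {Pi : ℕ → Prop} (π : A →* Q) (hπ : Surjective π)
    (hN : ∀ a, Pi a → a.Coprime (Nat.card π.ker)) (xb yb : Q)
    (hb : Pi (Nat.card (conjSub xb yb))) (hne : (Om π (conjSub xb yb)).Nonempty)
    (htr : ∀ K1 ∈ Om π (conjSub xb yb), ∀ K2 ∈ Om π (conjSub xb yb), ∃ n ∈ π.ker, K2 = cj n K1) :
    Nat.card {t : A × A // (π t.1 = xb ∧ π t.2 = yb) ∧ Pi (Nat.card (conjSub t.1 t.2))} =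
      Nat.card π.ker := by
  rw [← count_pairs π hπ xb (conjSub xb yb) (cj_conjSub xb yb) hne htr]
  have hOm : ∀ x y : A, π x = xb → π y = yb → Pi (Nat.card (conjSub x y)) →
      conjSub x y ∈ Om π (conjSub xb yb) := by
    intro x y hx hy hP
    refine ⟨?_, by rw [map_conjSub, hx, hy]⟩
    have h1 := hN _ hP
    have h2 : Nat.card (conjSub x y ⊓ π.ker : Subgroup A) ∣ 1 := by
      rw [← h1.gcd_eq_one]
      exact Nat.dvd_gcd (Subgroup.card_dvd_of_le inf_le_left) (Subgroup.card_dvd_of_le inf_le_right)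
    exact Subgroup.card_eq_one.mp (Nat.dvd_one.mp h2)
  have hinj : ∀ K ∈ Om π (conjSub xb yb), ∀ y ∈ K, ∀ z ∈ K, π y = π z → y = z := by
    intro K hK y hy z hz hyz
    have h1 : y * z⁻¹ ∈ K ⊓ π.ker := by
      refine ⟨K.mul_mem hy (K.inv_mem hz), ?_⟩
      change y * z⁻¹ ∈ π.ker
      rw [MonoidHom.mem_ker, map_mul, map_inv, hyz, mul_inv_cancel]
    rw [hK.1, Subgroup.mem_bot] at h1
    exact mul_inv_eq_one.mp h1
  have hlift : ∀ K ∈ Om π (conjSub xb yb), ∃ y ∈ K, π y = yb := by
    intro K hK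
    have h1 : yb ∈ K.map π := by
      rw [hK.2]; exact mem_conjSub xb yb
    obtain ⟨y, hy, hyb⟩ := h1
    exact ⟨y, hy, hyb⟩
  have hself : ∀ (K : Subgroup A) (x y : A), K ∈ Om π (conjSub xb yb) → π x = xb → y ∈ K →
      π y = yb → cj x K = K → conjSub x y = K := by
    intro K x y hK hx hy hyb hxK
    have hle : conjSub x y ≤ K := conjSub_le hxK hy
    apply le_antisymm hle
    intro z hz
    have h1 : π z ∈ (conjSub x y).map π := by
      rw [map_conjSub, hx, hyb, ← hK.2]
      exact ⟨z, hz, rfl⟩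
    obtain ⟨w, hw, hwz⟩ := h1
    have := hinj K hK w (hle hw) z hz hwz
    rw [← this]; exact hw
  choose! Y hY1 hY2 using hlift
  apply Nat.card_congr
  exact
    { toFun := fun t => ⟨(t.1.1, conjSub t.1.1 t.1.2), t.2.1.1,
        hOm _ _ t.2.1.1 t.2.1.2 t.2.2, cj_conjSub _ _⟩
      invFun := fun s => ⟨(s.1.1, Y s.1.2), ⟨s.2.1, hY2 _ s.2.2.1⟩, by
        change Pi (Nat.card (conjSub s.1.1 (Y s.1.2)))
        rw [hself s.1.2 s.1.1 (Y s.1.2) s.2.2.1 s.2.1 (hY1 _ s.2.2.1) (hY2 _ s.2.2.1) s.2.2.2]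
        have h1 := card_map_mul π s.1.2
        rw [s.2.2.1.1, s.2.2.1.2, Subgroup.card_bot, mul_one] at h1
        rw [h1]; exact hb⟩
      left_inv := fun t => by
        apply Subtype.ext
        apply Prod.ext
        · rfl
        · change Y (conjSub t.1.1 t.1.2) = t.1.2
          have hO := hOm _ _ t.2.1.1 t.2.1.2 t.2.2
          apply hinj _ hO _ (hY1 _ hO) _ (mem_conjSub _ _)
          rw [hY2 _ hO, t.2.1.2]
      right_inv := fun s => by
        apply Subtype.ext
        apply Prod.ext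
        · rfl
        · change conjSub s.1.1 (Y s.1.2) = s.1.2
          exact hself s.1.2 s.1.1 (Y s.1.2) s.2.2.1 s.2.1 (hY1 _ s.2.2.1) (hY2 _ s.2.2.1) s.2.2.2 }

end

end Pool.Agent.H50.PSV
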