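import Pool.Agent.H50.PSV.Complete

set_option autoImplicit false

namespace Pool.Agent.H50.PSV

open Function Pool.Agent.H21.Prof

variable {C : ∀ (A : Type) [Group A], Prop}
  {G : Type} [Group G] [TopologicalSpace G] [IsTopologicalGroup G]

theorem exists_gen_in [CompactSpace G] (hC : IsPseudovariety C) (hG : IsPro C G) (k : ℕ)
    (h : ∀ (A : Type) [Group A], C A → hh G A = Nat.card A ^ k) :
    ∃ t : Fin k → G, TopGen t := by
  have hne : Nonempty (ON G) := ⟨⟨⊤, inferInstance, isOpen_univ⟩⟩
  have key := IsCompact.nonempty_iInter_of_directed_nonempty_isCompact_isClosed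
    (fun U : ON G => {t : Fin k → G | Subgroup.closure (Set.range t) ⊔ U.1 = ⊤}) ?_ ?_ ?_ ?_
  · obtain ⟨t, ht⟩ := key
    refine ⟨t, fun U => ?_⟩
    exact (Set.mem_iInter.mp ht) U
  · intro U V
    refine ⟨U.inf V, ?_, ?_⟩
    · intro t ht
      change Subgroup.closure (Set.range t) ⊔ U.1 = ⊤
      have ht' : Subgroup.closure (Set.range t) ⊔ (U.1 ⊓ V.1) = ⊤ := ht
      apply top_le_iff.mp
      rw [← ht']
      exact sup_le_sup_left inf_le_left _
    · intro t ht
      change Subgroup.closure (Set.range t) ⊔ V.1 = ⊤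
      have ht' : Subgroup.closure (Set.range t) ⊔ (U.1 ⊓ V.1) = ⊤ := ht
      apply top_le_iff.mp
      rw [← ht']
      exact sup_le_sup_left inf_le_right _
  · intro U
    have hU : C (G ⧸ U.1) := hG U.1 U.2.2
    have := hC.fin _ hU
    have hfin : Finite (CH G (G ⧸ U.1)) := by
      have h3 := h _ hU
      have h4 : 0 < Nat.card (G ⧸ U.1) ^ k := pow_pos Nat.card_pos k
      rw [← h3] at h4
      exact (Nat.card_pos_iff.mp h4).2
    have h1 : Nat.card {φ : CH G (G ⧸ U.1) // φ.1.range = ⊤} =
        Nat.card {t : Fin k → (G ⧸ U.1) // Subgroup.closure (Set.range t) = ⊤} := by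
      apply card_eq_of_card_le (fun φ : CH G (G ⧸ U.1) => φ.1.range)
        (fun t : Fin k → (G ⧸ U.1) => Subgroup.closure (Set.range t)) Set.univ
        (fun _ _ _ _ => trivial)
      · intro B _
        rw [card_tuples_le, ← h B (hC.sub _ B hU), hh_sub]
      · trivial
    have h2 : 0 < Nat.card {φ : CH G (G ⧸ U.1) // φ.1.range = ⊤} := by
      have : Nonempty {φ : CH G (G ⧸ U.1) // φ.1.range = ⊤} :=
        ⟨⟨U.mk, MonoidHom.range_eq_top.mpr (QuotientGroup.mk'_surjective U.1)⟩⟩
      exact Nat.card_pos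
    rw [h1] at h2
    obtain ⟨⟨s, hs⟩⟩ := (Nat.card_pos_iff.mp h2).1
    refine ⟨fun i => (s i).out, ?_⟩
    change Subgroup.closure (Set.range (fun i => (s i).out)) ⊔ U.1 = ⊤
    have h1 : Set.range s =
        (QuotientGroup.mk' U.1) '' Set.range (fun i => (s i).out) := by
      rw [← Set.range_comp]
      congr 1
      funext i
      exact (QuotientGroup.out_eq' (s i)).symm
    rw [h1, ← MonoidHom.map_closure, ← Subgroup.comap_injective
      (QuotientGroup.mk'_surjective U.1) |>.eq_iff, Subgroup.comap_map_eq,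
      QuotientGroup.ker_mk', Subgroup.comap_top] at hs
    exact hs
  · intro U
    exact (isClosed_gen k U).isCompact
  · intro U
    exact isClosed_gen k U

/-- Counting homomorphisms into the members of `C` recognises free pro-`C` groups. -/
theorem isFreeIn_of_card [CompactSpace G] (hC : IsPseudovariety C) (hG : IsPro C G) (k : ℕ)
    (h : ∀ (A : Type) [Group A], C A → hh G A = Nat.card A ^ k) : IsFreeIn C G k := by
  obtain ⟨t, ht⟩ := exists_gen_in hC hG k h
  refine ⟨t, ?_⟩
  have hbij : ∀ (A : Type) [Group A], C A →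
      Bijective (fun φ : CH G A => fun i => φ.1 (t i)) := by
    intro A _ hA
    have := hC.fin A hA
    have hfin : Finite (CH G A) := by
      have h3 := h _ hA
      have h4 : 0 < Nat.card A ^ k := pow_pos Nat.card_pos k
      rw [← h3] at h4
      exact (Nat.card_pos_iff.mp h4).2
    have hinj : Injective (fun φ : CH G A => fun i => φ.1 (t i)) := by
      intro φ ψ hφψ
      exact ch_eq ht (fun i => congrFun hφψ i)
    apply hinj.bijective_of_nat_card_le
    have h1 : Nat.card (Fin k → A) = Nat.card A ^ k := by simp [Nat.card_fun]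
    rw [h1, ← h A hA]
    exact le_refl _
  intro K _ _ _ _ _ _ hK f
  apply ext_unique ht
  intro V
  obtain ⟨φ, hφ⟩ := (hbij (K ⧸ V.1) (hK V.1 V.2.2)).2 (fun i => QuotientGroup.mk (f i))
  exact ⟨φ, fun i => congrFun hφ i⟩

/-- The number of homomorphisms of a free pro-`C` group. -/
theorem card_of_isFreeIn {k : ℕ} (hF : IsFreeIn C G k) {A : Type} [Group A]
    [Finite A] (hA : ∀ (V : Subgroup A) [V.Normal], C (A ⧸ V)) :
    hh G A = Nat.card A ^ k := by
  obtain ⟨ι, hι⟩ := hF
  let _ : TopologicalSpace A := ⊥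
  have : DiscreteTopology A := ⟨rfl⟩
  have hK : IsPro C A := fun V _ _ => hA V
  choose F hF1 hF2 using hι A hK
  have h1 : Nat.card (Fin k → A) = Nat.card A ^ k := by simp [Nat.card_fun]
  rw [← h1]
  apply Nat.card_congr
  exact
    { toFun := fun φ i => φ.1 (ι i)
      invFun := fun f => ofC (F f)
      left_inv := fun φ => by
        have h2 := hF2 (fun i => φ.1 (ι i)) (toC φ) (fun i => rfl)
        apply ch_ext
        intro g
        change F (fun i => φ.1 (ι i)) g = φ.1 g
        rw [← h2]
        rfl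
      right_inv := fun f => by
        funext i
        exact hF1 f i }

end Pool.Agent.H50.PSV
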