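import Pool.Agent.H50.PSV.FreeC

set_option autoImplicit false

namespace Pool.Agent.H50.PSV

open Function Pool.Agent.H21.Prof

/-- The condition on a pair of entries of a tuple. -/
def cnd (Pi : ℕ → Prop) {X : Type} (a b : X) : ∀ (A : Type) [Group A], (X → A) → Prop :=
  fun _ _ t => Pi (Nat.card (conjSub (t a) (t b)))

theorem condOK_cnd {Pi : ℕ → Prop} (hPi : GoodPi Pi) {X : Type} (a b : X) :
    CondOK X (cnd Pi a b) where
  one := by
    intro A _
    change Pi (Nat.card (conjSub (1 : A) 1))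
    have h1 : conjSub (1 : A) 1 = ⊥ := by
      unfold conjSub
      rw [Subgroup.closure_eq_bot_iff]
      rintro x ⟨i, rfl⟩
      simp
    rw [h1, Subgroup.card_bot]
    exact hPi.one
  map := by
    intro A B _ _ _ _ f t h
    exact pi_map hPi f _ _ h
  inj := by
    intro A B _ _ _ _ f t hf h
    change Pi (Nat.card (conjSub (t a) (t b)))
    change Pi (Nat.card (conjSub (f (t a)) (f (t b)))) at h
    rw [← map_conjSub, Subgroup.card_map_of_injective hf] at h
    exact h
  prod := by
    intro A B _ _ _ _ t s h1 h2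
    change Pi (Nat.card (conjSub (t a, s a) (t b, s b)))
    change Pi (Nat.card (conjSub (t a) (t b))) at h1
    change Pi (Nat.card (conjSub (s a) (s b))) at h2
    rw [card_map_mul (MonoidHom.fst A B)]
    apply hPi.mul
    · rw [map_conjSub]; exact h1
    · have h3 : Nat.card ((conjSub (t a, s a) (t b, s b) ⊓ (MonoidHom.fst A B).ker :
          Subgroup (A × B)).map (MonoidHom.snd A B)) =
          Nat.card (conjSub (t a, s a) (t b, s b) ⊓ (MonoidHom.fst A B).ker :
          Subgroup (A × B)) := by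
        apply Nat.card_congr
        symm
        apply Equiv.ofBijective (fun x => ⟨MonoidHom.snd A B x.1, ⟨x.1, x.2, rfl⟩⟩)
        constructor
        · intro x y hxy
          have h4 : x.1.2 = y.1.2 := congrArg Subtype.val hxy
          have hx1 : x.1.1 = 1 := x.2.2
          have hy1 : y.1.1 = 1 := y.2.2
          exact Subtype.ext (Prod.ext (hx1.trans hy1.symm) h4)
        · rintro ⟨y, ⟨x, hx, rfl⟩⟩
          exact ⟨⟨x, hx⟩, rfl⟩
      rw [← h3]
      refine hPi.dvd _ _ ?_ (Nat.card_pos).ne' h2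
      apply Subgroup.card_dvd_of_le
      have h5 := map_conjSub (MonoidHom.snd A B) (t a, s a) (t b, s b)
      change _ = conjSub (s a) (s b) at h5
      rw [← h5]
      exact Subgroup.map_mono inf_le_left

/-- The conjunction of two conditions on the two halves of a tuple. -/
def cndSum {X Y : Type} (c1 : ∀ (A : Type) [Group A], (X → A) → Prop)
    (c2 : ∀ (A : Type) [Group A], (Y → A) → Prop) :
    ∀ (A : Type) [Group A], (X ⊕ Y → A) → Prop :=
  fun A _ t => c1 A (fun x => t (Sum.inl x)) ∧ c2 A (fun y => t (Sum.inr y))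

theorem condOK_sum {X Y : Type} {c1 : ∀ (A : Type) [Group A], (X → A) → Prop}
    {c2 : ∀ (A : Type) [Group A], (Y → A) → Prop} (h1 : CondOK X c1) (h2 : CondOK Y c2) :
    CondOK (X ⊕ Y) (cndSum c1 c2) where
  one := fun A _ => ⟨h1.one A, h2.one A⟩
  map := fun A B _ _ _ _ f _ h => ⟨h1.map A B f _ h.1, h2.map A B f _ h.2⟩
  inj := fun A B _ _ _ _ f _ hf h => ⟨h1.inj A B f _ hf h.1, h2.inj A B f _ hf h.2⟩
  prod := fun A B _ _ _ _ _ _ h h' => ⟨h1.prod A B _ _ h.1 h'.1, h2.prod A B _ _ h.2 h'.2⟩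

section coprod
variable {C : ∀ (A : Type) [Group A], Prop} {X Y : Type}
  {c1 : ∀ (A : Type) [Group A], (X → A) → Prop}
  {c2 : ∀ (A : Type) [Group A], (Y → A) → Prop}

/-- The completion for the conjunction is the coproduct. -/
theorem coprod_Cp (hC : IsPseudovariety C) (hne : ∃ (A : Type) (_ : Group A), C A)
    (h1 : CondOK X c1) (h2 : CondOK Y c2) :
    ∃ (iG : ContinuousMonoidHom (Cp C X c1) (Cp C (X ⊕ Y) (cndSum c1 c2)))
      (iH : ContinuousMonoidHom (Cp C Y c2) (Cp C (X ⊕ Y) (cndSum c1 c2))),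
      IsCoprodIn C (Cp C X c1) (Cp C Y c2) (Cp C (X ⊕ Y) (cndSum c1 c2)) iG iH := by
  have h12 := condOK_sum h1 h2
  have hP := isPro_Cp (C := C) hC h12 hne
  obtain ⟨iG, hiG, _⟩ := ext_Cp (C := C) hC h1 hP (fun x => gen (Sum.inl x))
    (fun V => by
      have := V.finite
      exact (cond_of_hom hC h12 hne V.mk).1)
  obtain ⟨iH, hiH, _⟩ := ext_Cp (C := C) hC h2 hP (fun y => gen (Sum.inr y))
    (fun V => by
      have := V.finite
      exact (cond_of_hom hC h12 hne V.mk).2)
  refine ⟨iG, iH, ?_⟩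
  intro K _ _ _ _ _ _ hK f g
  have hf : ∀ V : ON K, c1 (K ⧸ V.1) (fun x => QuotientGroup.mk (f (gen x))) := by
    intro V
    have hfin : Finite (K ⧸ V.1) := V.finite
    have hV : IsOpen ((((QuotientGroup.mk' V.1).comp f.toMonoidHom).ker :
        Subgroup (Cp C X c1)) : Set (Cp C X c1)) := by
      have e : (((QuotientGroup.mk' V.1).comp f.toMonoidHom).ker : Set (Cp C X c1)) =
          (fun x => f x) ⁻¹' (V.1 : Set K) := by
        ext x
        change (QuotientGroup.mk' V.1) (f x) = 1 ↔ _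
        rw [QuotientGroup.mk'_apply, QuotientGroup.eq_one_iff]
        rfl
      rw [e]
      exact V.2.2.preimage f.continuous_toFun
    exact cond_of_hom hC h1 hne ⟨_, hV⟩
  have hg : ∀ V : ON K, c2 (K ⧸ V.1) (fun x => QuotientGroup.mk (g (gen x))) := by
    intro V
    have hfin : Finite (K ⧸ V.1) := V.finite
    have hV : IsOpen ((((QuotientGroup.mk' V.1).comp g.toMonoidHom).ker :
        Subgroup (Cp C Y c2)) : Set (Cp C Y c2)) := by
      have e : (((QuotientGroup.mk' V.1).comp g.toMonoidHom).ker : Set (Cp C Y c2)) =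
          (fun x => g x) ⁻¹' (V.1 : Set K) := by
        ext x
        change (QuotientGroup.mk' V.1) (g x) = 1 ↔ _
        rw [QuotientGroup.mk'_apply, QuotientGroup.eq_one_iff]
        rfl
      rw [e]
      exact V.2.2.preimage g.continuous_toFun
    exact cond_of_hom hC h2 hne ⟨_, hV⟩
  obtain ⟨φ, hφ, hφu⟩ := ext_Cp (C := C) hC h12 hK
    (Sum.elim (fun x => f (gen x)) (fun y => g (gen y))) (fun V => ⟨hf V, hg V⟩)
  refine ⟨φ, ⟨?_, ?_⟩, ?_⟩
  · intro x
    have e : φ.comp iG = f := by
      apply cmh_eq topGen_gen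
      intro x
      change φ (iG (gen x)) = f (gen x)
      rw [hiG, hφ]
      rfl
    rw [← e]; rfl
  · intro y
    have e : φ.comp iH = g := by
      apply cmh_eq topGen_gen
      intro x
      change φ (iH (gen x)) = g (gen x)
      rw [hiH, hφ]
      rfl
    rw [← e]; rfl
  · rintro ψ ⟨hψ1, hψ2⟩
    apply hφu
    rintro (x | y)
    · rw [← hiG, hψ1]; rfl
    · rw [← hiH, hψ2]; rfl

end coprod

/-- The count for a condition on the first pair of entries. -/
theorem card_cnd (Pi : ℕ → Prop) (m : ℕ) (A : Type) [Group A] [Finite A] :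
    Nat.card {t : (Fin 2 ⊕ Fin m) → A // cnd Pi (Sum.inl 0) (Sum.inl 1) A t} =
      num Pi A * Nat.card A ^ m := by
  have e : {t : (Fin 2 ⊕ Fin m) → A // cnd Pi (Sum.inl 0) (Sum.inl 1) A t} ≃
      {t : A × A // Pi (Nat.card (conjSub t.1 t.2))} × (Fin m → A) :=
    { toFun := fun t => (⟨(t.1 (Sum.inl 0), t.1 (Sum.inl 1)), t.2⟩, fun i => t.1 (Sum.inr i))
      invFun := fun s => ⟨Sum.elim ![s.1.1.1, s.1.1.2] s.2, s.1.2⟩
      left_inv := fun t => by
        apply Subtype.ext
        funext x
        rcases x with x | x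
        · fin_cases x <;> rfl
        · rfl
      right_inv := fun s => rfl }
  rw [Nat.card_congr e, Nat.card_prod]
  simp [num, Nat.card_fun]

theorem card_cnd2 (Pi : ℕ → Prop) (A : Type) [Group A] [Finite A] :
    Nat.card {t : Fin 2 → A // cnd Pi 0 1 A t} = num Pi A := by
  have e : {t : Fin 2 → A // cnd Pi 0 1 A t} ≃
      {t : A × A // Pi (Nat.card (conjSub t.1 t.2))} :=
    { toFun := fun t => ⟨(t.1 0, t.1 1), t.2⟩
      invFun := fun s => ⟨![s.1.1, s.1.2], s.2⟩
      left_inv := fun t => by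
        apply Subtype.ext
        funext x
        fin_cases x <;> rfl
      right_inv := fun s => rfl }
  rw [Nat.card_congr e]
  rfl

theorem card_cndSum {X Y : Type} (c1 : ∀ (A : Type) [Group A], (X → A) → Prop)
    (c2 : ∀ (A : Type) [Group A], (Y → A) → Prop) (A : Type) [Group A] :
    Nat.card {t : X ⊕ Y → A // cndSum c1 c2 A t} =
      Nat.card {t : X → A // c1 A t} * Nat.card {t : Y → A // c2 A t} := by
  have e : {t : X ⊕ Y → A // cndSum c1 c2 A t} ≃
      {t : X → A // c1 A t} × {t : Y → A // c2 A t} :=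
    { toFun := fun t => (⟨fun x => t.1 (Sum.inl x), t.2.1⟩, ⟨fun y => t.1 (Sum.inr y), t.2.2⟩)
      invFun := fun s => ⟨Sum.elim s.1.1 s.2.1, s.1.2, s.2.2⟩
      left_inv := fun t => by
        apply Subtype.ext
        funext x
        rcases x with x | x <;> rfl
      right_inv := fun s => rfl }
  rw [Nat.card_congr e, Nat.card_prod]

/-- The counts for groups of prime order. -/
theorem num_prime {Pi : ℕ → Prop} (hPi : GoodPi Pi) {l : ℕ} (hl : l.Prime) (A : Type) [Group A]
    (hA : Nat.card A = l) : (Pi l → num Pi A = l ^ 2) ∧ (¬ Pi l → num Pi A = l) := by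
  have hfin : Finite A := Nat.finite_of_card_ne_zero (by rw [hA]; exact hl.ne_zero)
  have hcard : ∀ x y : A, y ≠ 1 → Nat.card (conjSub x y) = l := by
    intro x y hy
    have h1 : Nat.card (conjSub x y) ∣ l := by
      rw [← hA]; exact Subgroup.card_subgroup_dvd_card _
    rcases (Nat.dvd_prime hl).mp h1 with h2 | h2
    · exfalso
      have h3 := Subgroup.card_eq_one.mp h2
      have h4 := mem_conjSub x y
      rw [h3, Subgroup.mem_bot] at h4
      exact hy h4
    · exact h2
  have hone : ∀ x : A, Nat.card (conjSub x 1) = 1 := by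
    intro x
    have h1 : conjSub x (1 : A) = ⊥ := by
      unfold conjSub
      rw [Subgroup.closure_eq_bot_iff]
      rintro z ⟨i, rfl⟩
      simp
    rw [h1, Subgroup.card_bot]
  unfold num
  refine ⟨fun h => ?_, fun h => ?_⟩
  · have e : {t : A × A // Pi (Nat.card (conjSub t.1 t.2))} ≃ A × A :=
      Equiv.subtypeUnivEquiv (fun t => by
        by_cases h1 : t.2 = 1
        · rw [h1, hone]; exact hPi.one
        · rw [hcard _ _ h1]; exact h)
    rw [Nat.card_congr e, Nat.card_prod, hA, sq]
  · have e : {t : A × A // Pi (Nat.card (conjSub t.1 t.2))} ≃ A :=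
      { toFun := fun t => t.1.1
        invFun := fun x => ⟨(x, 1), by
          change Pi (Nat.card (conjSub x 1))
          rw [hone]; exact hPi.one⟩
        left_inv := fun t => by
          apply Subtype.ext
          apply Prod.ext
          · rfl
          · by_contra h1
            have h2 : t.1.2 ≠ 1 := fun h3 => h1 h3.symm
            have h3 := t.2
            rw [hcard _ _ h2] at h3
            exact h h3
        right_inv := fun x => rfl }
    rw [Nat.card_congr e, hA]

theorem card_mulZMod (q : ℕ) : Nat.card (Multiplicative (ZMod q)) = q := by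
  rw [Nat.card_congr Multiplicative.toAdd, Nat.card_zmod]

/-- **Main theorem.** -/
theorem nonfree {p : ℕ} (hp : p.Prime) {C : ∀ (A : Type) [Group A], Prop}
    (hC : IsPseudovariety C) (hps : ∀ (A : Type) [Group A], C A → IsPSolvable p A)
    (hCp : C (Multiplicative (ZMod p)))
    (hCq : ∃ q : ℕ, q.Prime ∧ q ≠ p ∧ C (Multiplicative (ZMod q))) (n : ℕ) (hn : 3 ≤ n) :
    NonFreeDecomp C n := by
  have : Fact p.Prime := ⟨hp⟩
  obtain ⟨m, rfl⟩ : ∃ m, n = m + 3 := ⟨n - 3, by omega⟩
  obtain ⟨q, hq, hqp, hCq⟩ := hCq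
  have : NeZero q := ⟨hq.ne_zero⟩
  have hne : ∃ (A : Type) (_ : Group A), C A := ⟨Multiplicative (ZMod p), inferInstance, hCp⟩
  have h1 : CondOK (Fin 2 ⊕ Fin m) (cnd (PPow p) (Sum.inl 0) (Sum.inl 1)) :=
    condOK_cnd (goodPow hp) _ _
  have h2 : CondOK (Fin 2) (cnd (Nat.Coprime p) 0 1) := condOK_cnd (goodCop hp) _ _
  have h12 := condOK_sum h1 h2
  obtain ⟨iG, iH, hcop⟩ := coprod_Cp (C := C) hC hne h1 h2
  have hGp : ∀ (A : Type) [Group A], C A →
      hh (Cp C _ (cnd (PPow p) (Sum.inl (0 : Fin 2)) (Sum.inl 1 : Fin 2 ⊕ Fin m))) A =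
        num (PPow p) A * Nat.card A ^ m := by
    intro A _ hA
    have := hC.fin A hA
    rw [hh_Cp hC h1 hne hA, card_cnd]
  have hHp : ∀ (A : Type) [Group A], C A →
      hh (Cp C _ (cnd (Nat.Coprime p) (0 : Fin 2) 1)) A = num (Nat.Coprime p) A := by
    intro A _ hA
    have := hC.fin A hA
    rw [hh_Cp hC h2 hne hA, card_cnd2]
  have hquot : ∀ l : ℕ, l.Prime → C (Multiplicative (ZMod l)) →
      ∀ (V : Subgroup (Multiplicative (ZMod l))) [V.Normal],
        C (Multiplicative (ZMod l) ⧸ V) := by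
    intro l _ hl V _
    exact hC.image _ _ (QuotientGroup.mk' V) (QuotientGroup.mk'_surjective V) hl
  have hpp : PPow p p := ⟨1, by rw [pow_one]⟩
  have hpq : ¬ PPow p q := by
    rintro ⟨k, hk⟩
    rcases Nat.eq_zero_or_pos k with h0 | h0
    · rw [h0, pow_zero] at hk
      exact hq.one_lt.ne' hk
    · have h3 : p ∣ q := by rw [hk]; exact dvd_pow_self p h0.ne'
      exact hqp ((Nat.prime_dvd_prime_iff_eq hp hq).mp h3).symm
  have hcp : ¬ Nat.Coprime p p := by
    intro h
    rw [Nat.coprime_self] at h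
    exact hp.one_lt.ne' h
  have hcq : Nat.Coprime p q := (Nat.coprime_primes hp hq).mpr (fun h => hqp h.symm)
  refine ⟨Cp C _ (cnd (PPow p) (Sum.inl (0 : Fin 2)) (Sum.inl 1 : Fin 2 ⊕ Fin m)),
    inferInstance, inferInstance, inferInstance, inferInstance, inferInstance, inferInstance,
    Cp C _ (cnd (Nat.Coprime p) (0 : Fin 2) 1),
    inferInstance, inferInstance, inferInstance, inferInstance, inferInstance, inferInstance,
    Cp C _ (cndSum (cnd (PPow p) (Sum.inl (0 : Fin 2)) (Sum.inl 1 : Fin 2 ⊕ Fin m))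
      (cnd (Nat.Coprime p) (0 : Fin 2) 1)),
    inferInstance, inferInstance, inferInstance, inferInstance, inferInstance, inferInstance,
    iG, iH, isPro_Cp hC h1 hne, isPro_Cp hC h2 hne, isPro_Cp hC h12 hne, hcop, ?_, ?_, ?_⟩
  · apply isFreeIn_of_card hC (isPro_Cp hC h12 hne)
    intro A _ hA
    have hfA := hC.fin A hA
    rw [hh_Cp hC h12 hne hA, card_cndSum, card_cnd, card_cnd2]
    have h3 := num_mul p C hC hps (Nat.card A) A hA le_rfl
    calc num (PPow p) A * Nat.card A ^ m * num (Nat.Coprime p) A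
        = (num (PPow p) A * num (Nat.Coprime p) A) * Nat.card A ^ m := by ring
      _ = Nat.card A ^ (m + 3) := by rw [h3, pow_add]; ring
  · intro k hk
    have e1 := card_of_isFreeIn hk (A := Multiplicative (ZMod p)) (hquot p hp hCp)
    have e2 := card_of_isFreeIn hk (A := Multiplicative (ZMod q)) (hquot q hq hCq)
    rw [hGp _ hCp, (num_prime (goodPow hp) hp _ (card_mulZMod p)).1 hpp, card_mulZMod,
      ← pow_add] at e1
    rw [hGp _ hCq, (num_prime (goodPow hp) hq _ (card_mulZMod q)).2 hpq, card_mulZMod,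
      ← pow_succ'] at e2
    have e3 := Nat.pow_right_injective hp.two_le e1
    have e4 := Nat.pow_right_injective hq.two_le e2
    omega
  · intro k hk
    have e1 := card_of_isFreeIn hk (A := Multiplicative (ZMod p)) (hquot p hp hCp)
    have e2 := card_of_isFreeIn hk (A := Multiplicative (ZMod q)) (hquot q hq hCq)
    rw [hHp _ hCp, (num_prime (goodCop hp) hp _ (card_mulZMod p)).2 hcp,
      card_mulZMod] at e1
    rw [hHp _ hCq, (num_prime (goodCop hp) hq _ (card_mulZMod q)).1 hcq,
      card_mulZMod] at e2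
    have e3 : p ^ 1 = p ^ k := by rw [pow_one]; exact e1
    have e4 := Nat.pow_right_injective hp.two_le e3
    have e5 := Nat.pow_right_injective hq.two_le e2
    omega

end Pool.Agent.H50.PSV
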