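import Pool.Agent.H50.PSV.Reg

set_option autoImplicit false

namespace Pool.Agent.H50.PSV

open Function Pool.Agent.H21.Prof

variable {G : Type} [Group G] [TopologicalSpace G] [IsTopologicalGroup G]
variable {C : ∀ (A : Type) [Group A], Prop}

/-- Homomorphisms and elements: counting by the range. -/
theorem count_one {K : Type} [Group K] [Finite K] [Finite (CH G K)]
    (F : Set (Subgroup K)) (hF : ∀ A B : Subgroup K, A ≤ B → B ∈ F → A ∈ F)
    (h : ∀ B ∈ F, hh G B = Nat.card B) :
    Nat.card {φ : CH G K // φ.1.range ∈ F} =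
      Nat.card {x : K // Subgroup.zpowers x ∈ F} := by
  apply card_mem_eq (fun φ : CH G K => φ.1.range) (fun x : K => Subgroup.zpowers x) F hF
  intro B hB
  have e : {x : K // Subgroup.zpowers x ≤ B} ≃ B :=
    { toFun := fun x => ⟨x.1, x.2 (Subgroup.mem_zpowers x.1)⟩
      invFun := fun x => ⟨x.1, by rw [Subgroup.zpowers_le]; exact x.2⟩
      left_inv := fun x => rfl
      right_inv := fun x => rfl }
  rw [Nat.card_congr e, ← h B hB, hh_sub]

/-- If `hh G (Z q) = 1` for some prime `q`, then `G` has no nontrivial finite quotient. -/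
theorem no_quot_of_one_in (hC : IsPseudovariety C) (hE : IsExtClosed C) (R : RegIn C G) {q : ℕ}
    (hq : q.Prime) (hZ : C (Z q)) (h1 : hh G (Z q) = 1)
    {B : Type} [Group B] (hCB : C B) (φ : CH G B) (g : G) : φ.1 g = 1 := by
  classical
  have := hC.fin B hCB
  have := Fintype.ofFinite B
  have : NeZero q := ⟨hq.ne_zero⟩
  have : Fact (1 < q) := ⟨hq.one_lt⟩
  by_contra hg
  have hM : hh G (B → Z q) = 1 := by
    rw [R.comm hC (B → Z q) (C_pi hC hZ B)]
    have : Nat.card (B → Z q) = q ^ Nat.card B := by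
      rw [Nat.card_fun, card_Z]
    rw [this, cc_pow hq.ne_zero, cc_prime hq, h1, one_pow]
  have : Finite ((B → Z q) ⋊[trans B q] B) :=
    Finite.of_equiv _ (SemidirectProduct.equivProd (φ := trans B q)).symm
  let π : (B → Z q) ⋊[trans B q] B →* B := SemidirectProduct.rightHom
  have hπ : Surjective π := SemidirectProduct.rightHom_surjective
  have hk : hh G π.ker = hh G (B → Z q) := by
    have e : (B → Z q) ≃* π.ker :=
      (MonoidHom.ofInjective (SemidirectProduct.inl_injective (φ := trans B q))).trans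
        (MulEquiv.subgroupCongr SemidirectProduct.range_inl_eq_ker_rightHom)
    exact (hh_congr e).symm
  have hL := R.lift ((B → Z q) ⋊[trans B q] B) B π (C_semi hC hE _ (C_pi hC hZ B) hCB) hπ φ
  rw [hk, hM] at hL
  let δ : B → Z q := fun x => if x = 1 then Multiplicative.ofAdd 1 else 1
  let φ1 : CH G ((B → Z q) ⋊[trans B q] B) := cmap SemidirectProduct.inr φ
  let φ2 : CH G ((B → Z q) ⋊[trans B q] B) :=
    cmap ((MulAut.conj (SemidirectProduct.inl δ : (B → Z q) ⋊[trans B q] B)).toMonoidHom.comp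
    SemidirectProduct.inr) φ
  have e1 : cmap π φ1 = φ := by
    apply ch_ext; intro x; rfl
  have e2 : cmap π φ2 = φ := by
    apply ch_ext; intro x
    change (1 : B) * φ.1 x * (1 : B)⁻¹ = φ.1 x
    simp
  have hss : Subsingleton {φ' : CH G ((B → Z q) ⋊[trans B q] B) // cmap π φ' = φ} :=
    (Nat.card_eq_one_iff_unique.mp hL).1
  have h12 : φ1 = φ2 := by
    have := hss.elim ⟨φ1, e1⟩ ⟨φ2, e2⟩
    exact congrArg Subtype.val this
  have h3 := congrArg (fun ψ : CH G ((B → Z q) ⋊[trans B q] B) => (ψ.1 g).left 1) h12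
  simp only [φ1, φ2, cmap_apply, SemidirectProduct.left_inr, MonoidHom.comp_apply,
    MulEquiv.coe_toMonoidHom, MulAut.conj_apply, SemidirectProduct.mul_left,
    SemidirectProduct.left_inl, SemidirectProduct.right_inl, SemidirectProduct.inv_left,
    SemidirectProduct.mul_right, SemidirectProduct.right_inr] at h3
  simp [δ, hg] at h3
  have h4 : (0 : ZMod q) = 1 := congrArg Multiplicative.toAdd h3
  exact zero_ne_one h4

/-- The cocycle construction: too many lifts. -/
theorem no_surj_aux_in (hC : IsPseudovariety C) (hE : IsExtClosed C) (R : RegIn C G) {q : ℕ}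
    (hq : q.Prime) (hZ : C (Z q)) (h1 : hh G (Z q) = q)
    {B : Type} [Group B] (hCB : C B) (hB : q ∣ Nat.card B) (φ : CH G B)
    (hφ : Surjective φ.1) (χ : CH G (Z q)) (u : G) (hu : φ.1 u = 1) (hχ : χ.1 u ≠ 1) : False := by
  classical
  have := hC.fin B hCB
  have := Fintype.ofFinite B
  have hCI : C (aug B q) := hC.sub _ _ (C_pi hC hZ B)
  have : NeZero q := ⟨hq.ne_zero⟩
  have : Fact q.Prime := ⟨hq⟩
  have hcards : Nat.card (B → Z q) = q ^ Nat.card B := by rw [Nat.card_fun, card_Z]
  have hI : hh G (aug B q) = Nat.card (aug B q) := by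
    rw [R.comm hC (aug B q) hCI, cc_eq_pow 1 _ Nat.card_pos.ne', pow_one]
    intro r hr hrd
    have h2 : Nat.card (aug B q) ∣ q ^ Nat.card B := by
      rw [← hcards]; exact Subgroup.card_subgroup_dvd_card _
    have h3 : r = q := (Nat.prime_dvd_prime_iff_eq hr hq).mp (hr.dvd_of_dvd_pow (hrd.trans h2))
    rw [h3, h1, pow_one]
  have : Finite ((aug B q) ⋊[transAug B q] B) :=
    Finite.of_equiv _ (SemidirectProduct.equivProd (φ := transAug B q)).symm
  let π : (aug B q) ⋊[transAug B q] B →* B := SemidirectProduct.rightHom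
  have hπ : Surjective π := SemidirectProduct.rightHom_surjective
  have hk : hh G π.ker = hh G (aug B q) := by
    have e : (aug B q) ≃* π.ker :=
      (MonoidHom.ofInjective (SemidirectProduct.inl_injective (φ := transAug B q))).trans
        (MulEquiv.subgroupCongr SemidirectProduct.range_inl_eq_ker_rightHom)
    exact (hh_congr e).symm
  have hCS : C ((aug B q) ⋊[transAug B q] B) := C_semi hC hE _ hCI hCB
  have hL := R.lift ((aug B q) ⋊[transAug B q] B) B π hCS hπ φ
  rw [hk, hI] at hL
  have hlt : Nat.card (aug B q) < Nat.card (B → Z q) := by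
    rcases lt_or_ge (Nat.card (aug B q)) (Nat.card (B → Z q)) with h | h
    · exact h
    · exfalso
      have htop := Subgroup.eq_top_of_le_card _ h
      have : (fun x : B => if x = 1 then (Multiplicative.ofAdd (1 : ZMod q)) else 1) ∈ aug B q := by
        rw [htop]; trivial
      rw [mem_aug] at this
      simp at this
  -- the constants are in the augmentation subgroup
  have hconst : ∀ z : Z q, ∏ _x : B, z = 1 := by
    intro z
    rw [Finset.prod_const, Finset.card_univ, ← Nat.card_eq_fintype_card]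
    obtain ⟨k, hk⟩ := hB
    rw [hk, pow_mul]
    have : z ^ q = 1 := by
      have := pow_card_eq_one' (x := z)
      rwa [card_Z] at this
    rw [this, one_pow]
  -- the cocycle attached to a function
  let s0 : (B → Z q) → B → Z q := fun s => Function.update s 1 1
  let ex : Z q → Z q → Z q := fun a b => Multiplicative.ofAdd (a.toAdd * b.toAdd)
  have ex_mul : ∀ a b c, ex (a * b) c = ex a c * ex b c := by
    intro a b c
    apply Multiplicative.toAdd.injective
    simp [ex, add_mul]
  have ex_one : ∀ c, ex 1 c = 1 := by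
    intro c
    apply Multiplicative.toAdd.injective
    simp [ex]
  let γ : (B → Z q) → G → B → Z q := fun s g x =>
    s0 s ((φ.1 g)⁻¹ * x) * (s0 s x)⁻¹ * ex (χ.1 g) (s 1)
  have hγ : ∀ s g, γ s g ∈ aug B q := by
    intro s g
    rw [mem_aug]
    simp only [γ]
    rw [Finset.prod_mul_distrib, Finset.prod_mul_distrib, Finset.prod_inv_distrib, hconst]
    have := prod_trans B q (φ.1 g) (s0 s)
    simp only [trans_apply] at this
    rw [this]
    simp
  have hmul : ∀ s g h x, γ s (g * h) x = γ s g x * γ s h ((φ.1 g)⁻¹ * x) := by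
    intro s g h x
    simp only [γ, map_mul, ex_mul]
    have : (φ.1 g * φ.1 h)⁻¹ * x = (φ.1 h)⁻¹ * ((φ.1 g)⁻¹ * x) := by group
    rw [this]
    generalize s0 s ((φ.1 h)⁻¹ * ((φ.1 g)⁻¹ * x)) = a
    generalize s0 s ((φ.1 g)⁻¹ * x) = b
    generalize s0 s x = c
    generalize ex (χ.1 g) (s 1) = d
    generalize ex (χ.1 h) (s 1) = e
    calc a * c⁻¹ * (d * e) = (b * b⁻¹) * (a * c⁻¹ * (d * e)) := by rw [mul_inv_cancel, one_mul]
      _ = b * c⁻¹ * d * (a * b⁻¹ * e) := by
        simp only [mul_comm, mul_left_comm, mul_assoc]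
  let Φ : (B → Z q) → (G →* (aug B q) ⋊[transAug B q] B) := fun s =>
    { toFun := fun g => ⟨⟨γ s g, hγ s g⟩, φ.1 g⟩
      map_one' := by
        apply SemidirectProduct.ext
        · apply Subtype.ext; funext x
          change γ s 1 x = 1
          simp [γ, ex_one]
        · change φ.1 1 = 1
          exact map_one _
      map_mul' := fun g h => by
        apply SemidirectProduct.ext
        · apply Subtype.ext; funext x
          exact hmul s g h x
        · exact map_mul φ.1 g h }
  have hΦ : ∀ s, IsOpen ((Φ s).ker : Set G) := by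
    intro s
    refine Subgroup.isOpen_mono (H₁ := φ.1.ker ⊓ χ.1.ker) ?_ ?_
    · intro g hg
      obtain ⟨hg1, hg2⟩ := Subgroup.mem_inf.mp hg
      rw [MonoidHom.mem_ker] at hg1 hg2 ⊢
      apply SemidirectProduct.ext
      · apply Subtype.ext; funext x
        change γ s g x = 1
        simp [γ, hg1, hg2, ex_one]
      · exact hg1
    · rw [Subgroup.coe_inf]
      exact φ.2.inter χ.2
  let Ψ : (B → Z q) → {φ' : CH G ((aug B q) ⋊[transAug B q] B) // cmap π φ' = φ} := fun s =>
    ⟨⟨Φ s, hΦ s⟩, by apply ch_ext; intro x; rfl⟩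
  have hinj : Injective Ψ := by
    intro s t hst
    have hval : ∀ g x, γ s g x = γ t g x := by
      intro g x
      have := congrArg (fun ψ : {φ' : CH G ((aug B q) ⋊[transAug B q] B) // cmap π φ' = φ} =>
        ((ψ.1.1 g).left : aug B q).1 x) hst
      exact this
    have h11 : s 1 = t 1 := by
      have := hval u 1
      simp only [γ, hu, inv_one, one_mul, mul_inv_cancel] at this
      have h4 : (χ.1 u).toAdd * (s 1).toAdd = (χ.1 u).toAdd * (t 1).toAdd := this
      have h5 : (χ.1 u).toAdd ≠ 0 := fun h => hχ (Multiplicative.toAdd.injective h)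
      exact Multiplicative.toAdd.injective (mul_left_cancel₀ h5 h4)
    funext x
    by_cases hx : x = 1
    · rw [hx, h11]
    · obtain ⟨g, hg⟩ := hφ x⁻¹
      have := hval g 1
      simp only [γ, hg, inv_inv, mul_one, h11] at this
      have h6 : s0 s x * (s0 s 1)⁻¹ = s0 t x * (s0 t 1)⁻¹ := mul_right_cancel this
      simpa [s0, hx] using h6
  have := R.fin ((aug B q) ⋊[transAug B q] B) hCS
  have h7 := Nat.card_le_card_of_injective Ψ hinj
  omega

/-- If `hh G (Z q) = q`, then `G` has no nonabelian simple quotient of order divisible by `q`. -/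
theorem no_simple_quot_in (hC : IsPseudovariety C) (hE : IsExtClosed C) (R : RegIn C G) {q : ℕ}
    (hq : q.Prime) (hZ : C (Z q)) (h1 : hh G (Z q) = q)
    {B : Type} [Group B] (hCB : C B) [IsSimpleGroup B] (hB : q ∣ Nat.card B)
    (hnc : ∃ a b : B, a * b ≠ b * a) (φ : CH G B) : ¬ Surjective φ.1 := by
  intro hφ
  have : NeZero q := ⟨hq.ne_zero⟩
  have hfin := R.fin (Z q) hZ
  -- a nontrivial homomorphism to `Z q`
  have hne : ∃ χ : CH G (Z q), χ ≠ 1 := by
    by_contra hcon
    push Not at hcon
    have : Subsingleton (CH G (Z q)) := ⟨fun a b => by rw [hcon a, hcon b]⟩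
    have h2 : hh G (Z q) ≤ 1 := Finite.card_le_one_iff_subsingleton.mpr this
    rw [h1] at h2
    exact absurd hq.two_le (by omega)
  obtain ⟨χ, hχ⟩ := hne
  by_cases hu : ∃ u : G, φ.1 u = 1 ∧ χ.1 u ≠ 1
  · obtain ⟨u, hu1, hu2⟩ := hu
    exact no_surj_aux_in hC hE R hq hZ h1 hCB hB φ hφ χ u hu1 hu2
  · push Not at hu
    -- `χ` factors through `B`
    have hker : φ.1.ker ≤ χ.1.ker := fun g hg => hu g hg
    let χ' : B →* Z q := φ.1.liftOfSurjective hφ ⟨χ.1, hker⟩
    have hχ' : ∀ g, χ' (φ.1 g) = χ.1 g := fun g =>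
      MonoidHom.liftOfRightInverse_comp_apply _ _ _ ⟨χ.1, hker⟩ g
    rcases Subgroup.Normal.eq_bot_or_eq_top (H := χ'.ker) inferInstance with hb | ht
    · have hinj : Injective χ' := (MonoidHom.ker_eq_bot_iff χ').mp hb
      obtain ⟨a, b, hab⟩ := hnc
      apply hab
      apply hinj
      rw [map_mul, map_mul, mul_comm]
    · apply hχ
      apply ch_ext
      intro g
      rw [← hχ' g]
      have : φ.1 g ∈ χ'.ker := by rw [ht]; trivial
      rw [MonoidHom.mem_ker] at this
      rw [this]; rfl

/-- If `hh G (Z q) = q` for all primes `q` dividing the order of `B`, then `hh G B = |B|`. -/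
theorem hh_eq_card_in (hC : IsPseudovariety C) (hE : IsExtClosed C) (R : RegIn C G) (k : ℕ) :
    ∀ (B : Type) [Group B], C B →
    Nat.card B = k → (∀ q : ℕ, q.Prime → q ∣ k → hh G (Z q) = q) → hh G B = k := by
  induction k using Nat.strong_induction_on with
  | _ k ih =>
  intro B _ hCB hB hq
  have := hC.fin B hCB
  by_cases hsub : Subsingleton B
  · rw [hh_subsingleton, ← hB]
    exact (Nat.card_eq_one_iff_unique.mpr ⟨hsub, ⟨1⟩⟩).symm
  have hnt : Nontrivial B := not_subsingleton_iff_nontrivial.mp hsub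
  have hk0 : 0 < k := by rw [← hB]; exact Nat.card_pos
  by_cases hN : ∃ N : Subgroup B, N.Normal ∧ N ≠ ⊥ ∧ N ≠ ⊤
  · obtain ⟨N, hNn, hNb, hNt⟩ := hN
    have hc := Subgroup.card_eq_card_quotient_mul_card_subgroup N
    rw [hB] at hc
    have h1 : 1 < Nat.card N := (Subgroup.one_lt_card_iff_ne_bot N).mpr hNb
    have h2 : Nat.card N < k := by
      by_contra hcon
      push Not at hcon
      rw [← hB] at hcon
      exact hNt (Subgroup.eq_top_of_le_card _ hcon)
    have h3 : 0 < Nat.card (B ⧸ N) := Nat.card_pos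
    have h4 : Nat.card (B ⧸ N) < k := by rw [hc]; nlinarith
    rw [R.mul_quot hC N hCB, ih _ h4 (B ⧸ N) (hC.image _ _ (QuotientGroup.mk' N)
        (QuotientGroup.mk'_surjective N) hCB) rfl (fun q hq1 hq2 => hq q hq1 (by
        rw [hc]; exact hq2.mul_right _)), ih _ h2 N (hC.sub _ _ hCB) rfl (fun q hq1 hq2 => hq q hq1 (by
        rw [hc]; exact hq2.mul_left _))]
    exact hc.symm
  · push Not at hN
    have hsimple : IsSimpleGroup B := ⟨fun N hNn => by
      by_cases hNb : N = ⊥
      · exact Or.inl hNb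
      · exact Or.inr (hN N hNn hNb)⟩
    obtain ⟨q, hq1, hq2⟩ := Nat.exists_prime_and_dvd (n := k) (by
      rw [← hB]
      have := (Finite.one_lt_card_iff_nontrivial (α := B)).mpr hnt
      omega)
    by_cases hcomm : ∀ a b : B, a * b = b * a
    · let _ : CommGroup B := { (inferInstance : Group B) with mul_comm := hcomm }
      have h5 := R.comm hC B hCB
      rw [h5, hB, cc_eq_pow 1 k hk0.ne', pow_one]
      intro r hr hrd
      rw [hq r hr hrd, pow_one]
    · push Not at hcomm
      have hns := no_simple_quot_in hC hE R hq1 (C_Z hC hCB hq1 (by rw [hB]; exact hq2))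
        (hq q hq1 hq2) hCB (by rw [hB]; exact hq2) hcomm
      have hfinB := R.fin B hCB
      have hcount := count_one {A : Subgroup B | A ≠ ⊤} (fun A A' hAA hA' hA => by
        apply hA'
        rw [hA] at hAA
        exact top_le_iff.mp hAA) (fun A hA => by
        have hA' : A ≠ ⊤ := hA
        have h2 : Nat.card A < k := by
          by_contra hcon
          push Not at hcon
          rw [← hB] at hcon
          exact hA' (Subgroup.eq_top_of_le_card _ hcon)
        have h3 : Nat.card A ∣ k := by rw [← hB]; exact Subgroup.card_subgroup_dvd_card A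
        exact ih _ h2 A (hC.sub _ _ hCB) rfl (fun q hq1 hq2 => hq q hq1 (hq2.trans h3)))
      have h6 : ∀ φ : CH G B, φ.1.range ≠ ⊤ := fun φ h => hns φ (MonoidHom.range_eq_top.mp h)
      have h7 : ∀ x : B, Subgroup.zpowers x ≠ ⊤ := by
        intro x hx
        obtain ⟨a, b, hab⟩ := hcomm
        apply hab
        have ha : a ∈ Subgroup.zpowers x := by rw [hx]; trivial
        have hb : b ∈ Subgroup.zpowers x := by rw [hx]; trivial
        obtain ⟨i, rfl⟩ := ha
        obtain ⟨j, rfl⟩ := hb
        exact (Commute.zpow_zpow (Commute.refl x) i j).eq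
      have e1 : Nat.card {φ : CH G B // φ.1.range ∈ {A : Subgroup B | A ≠ ⊤}} = hh G B :=
        Nat.card_congr (Equiv.subtypeUnivEquiv h6)
      have e2 : Nat.card {x : B // Subgroup.zpowers x ∈ {A : Subgroup B | A ≠ ⊤}} = Nat.card B :=
        Nat.card_congr (Equiv.subtypeUnivEquiv h7)
      rw [← e1, hcount, e2, hB]

/-- **Rank at most two.** For an extension-closed pseudovariety `C`, the factors of a free
pro-`C` product which is free pro-`C` of rank at most two are free pro-`C`. -/
theorem free_le_two (hC : IsPseudovariety C) (hE : IsExtClosed C)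
    (G : Type) [Group G] [TopologicalSpace G] [IsTopologicalGroup G] [CompactSpace G]
    (H : Type) [Group H] [TopologicalSpace H] [IsTopologicalGroup H] [CompactSpace H]
    (P : Type) [Group P] [TopologicalSpace P] [IsTopologicalGroup P]
    (hG : IsPro C G) (hH : IsPro C H)
    (iG : ContinuousMonoidHom G P) (iH : ContinuousMonoidHom H P)
    (hP : IsCoprodIn C G H P iG iH) (n : ℕ) (hn : n ≤ 2) (hF : IsFreeIn C P n) :
    ∃ a b : ℕ, a + b = n ∧ IsFreeIn C G a ∧ IsFreeIn C H b := by
  obtain ⟨L⟩ := exists_link_in hC iG iH hP n hF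
  have RG := L.reg hC
  have RH := L.symm.reg hC
  have triv : ∀ (G' H' : Type) [Group G'] [TopologicalSpace G'] [IsTopologicalGroup G']
      [Group H'] [TopologicalSpace H'] [IsTopologicalGroup H'] (L' : LinkIn C G' H' n),
      (∃ q : ℕ, q.Prime ∧ C (Z q) ∧ hh G' (Z q) = 1) →
      (∀ (A : Type) [Group A], C A → hh G' A = Nat.card A ^ 0) ∧
      (∀ (A : Type) [Group A], C A → hh H' A = Nat.card A ^ n) := by
    intro G' H' _ _ _ _ _ _ L' hq
    obtain ⟨q, hq, hZ, hq1⟩ := hq
    have h0 : ∀ (A : Type) [Group A], C A → hh G' A = 1 := by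
      intro A _ hA
      have : Subsingleton (CH G' A) := ⟨fun φ ψ => by
        apply ch_ext
        intro g
        rw [no_quot_of_one_in hC hE (L'.reg hC) hq hZ hq1 hA,
          no_quot_of_one_in hC hE (L'.reg hC) hq hZ hq1 hA]⟩
      have h2 : hh G' A ≤ 1 := Finite.card_le_one_iff_subsingleton.mpr this
      have h3 := L'.hh_pos hC A hA
      omega
    refine ⟨fun A _ hA => by rw [h0 A hA, pow_zero], fun A _ hA => ?_⟩
    have := L'.card_mul A hA
    rw [h0 A hA, one_mul] at this
    exact this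
  by_cases h1 : ∃ q : ℕ, q.Prime ∧ C (Z q) ∧ hh G (Z q) = 1
  · obtain ⟨e1, e2⟩ := triv G H L h1
    exact ⟨0, n, by omega, isFreeIn_of_card hC hG 0 e1, isFreeIn_of_card hC hH n e2⟩
  by_cases h2 : ∃ q : ℕ, q.Prime ∧ C (Z q) ∧ hh H (Z q) = 1
  · obtain ⟨e1, e2⟩ := triv H G L.symm h2
    exact ⟨n, 0, by omega, isFreeIn_of_card hC hG n e2, isFreeIn_of_card hC hH 0 e1⟩
  push Not at h1 h2
  by_cases h3 : ∃ q : ℕ, q.Prime ∧ C (Z q)
  · have hrk : ∀ q : ℕ, q.Prime → C (Z q) → hh G (Z q) = q ∧ hh H (Z q) = q ∧ n = 2 := by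
      intro q hq hZ
      obtain ⟨a, b, hab, ha, hb⟩ := L.prime_pow hq hZ
      have ha0 : a ≠ 0 := fun h0 => h1 q hq hZ (by rw [ha, h0, pow_zero])
      have hb0 : b ≠ 0 := fun h0 => h2 q hq hZ (by rw [hb, h0, pow_zero])
      have ha1 : a = 1 := by omega
      have hb1 : b = 1 := by omega
      rw [ha, hb, ha1, hb1, pow_one]
      exact ⟨rfl, rfl, by omega⟩
    obtain ⟨q0, hq0, hZ0⟩ := h3
    have hn2 := (hrk q0 hq0 hZ0).2.2
    have hdiv : ∀ (A : Type) [Group A], C A → ∀ q : ℕ, q.Prime → q ∣ Nat.card A → C (Z q) :=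
      fun A _ hA q hq hd => C_Z hC hA hq hd
    refine ⟨1, 1, by omega, isFreeIn_of_card hC hG 1 (fun A _ hA => ?_),
      isFreeIn_of_card hC hH 1 (fun A _ hA => ?_)⟩
    · rw [pow_one]
      exact hh_eq_card_in hC hE RG _ A hA rfl (fun q hq hd => (hrk q hq (hdiv A hA q hq hd)).1)
    · rw [pow_one]
      exact hh_eq_card_in hC hE RH _ A hA rfl (fun q hq hd => (hrk q hq (hdiv A hA q hq hd)).2.1)
  · -- all members of `C` are trivial
    have hss : ∀ (A : Type) [Group A], C A → Subsingleton A := by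
      intro A _ hA
      have := hC.fin A hA
      by_contra hcon
      rw [not_subsingleton_iff_nontrivial] at hcon
      obtain ⟨q, hq1, hq2⟩ := Nat.exists_prime_and_dvd (n := Nat.card A) (by
        have := (Finite.one_lt_card_iff_nontrivial (α := A)).mpr hcon
        omega)
      exact h3 ⟨q, hq1, C_Z hC hA hq1 hq2⟩
    refine ⟨0, n, by omega, isFreeIn_of_card hC hG 0 (fun A _ hA => ?_),
      isFreeIn_of_card hC hH n (fun A _ hA => ?_)⟩
    · have := hss A hA
      rw [hh_subsingleton, pow_zero]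
    · have := hss A hA
      rw [hh_subsingleton, Nat.card_of_subsingleton (1 : A), one_pow]

end Pool.Agent.H50.PSV
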