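import Pool.Agent.H50.PSV.FreeC

set_option autoImplicit false

namespace Pool.Agent.H50.PSV

open Function Pool.Agent.H21.Prof

section
variable {C : ∀ (A : Type) [Group A], Prop}

theorem C_equiv (hC : IsPseudovariety C) {A B : Type} [Group A] [Group B] (e : A ≃* B) (h : C A) :
    C B := hC.image A B e.toMonoidHom e.surjective h

theorem C_pi (hC : IsPseudovariety C) {A : Type} [Group A] (h : C A) (ι : Type) [Finite ι] :
    C (ι → A) := by
  induction ι using Finite.induction_empty_option with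
  | of_equiv e ih =>
    rename_i α β
    refine hC.image (α → A) (β → A) { toFun := fun v x => v (e.symm x)
                                      map_one' := rfl
                                      map_mul' := fun _ _ => rfl } ?_ ih
    intro w
    refine ⟨fun x => w (e x), ?_⟩
    funext x
    change w (e (e.symm x)) = w x
    rw [Equiv.apply_symm_apply]
  | h_empty =>
    refine hC.image A (PEmpty → A) 1 ?_ h
    intro w
    exact ⟨1, Subsingleton.elim _ _⟩
  | h_option ih =>
    rename_i α _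
    refine hC.image (A × (α → A)) (Option α → A)
      { toFun := fun v x => x.elim v.1 v.2
        map_one' := by funext x; cases x <;> rfl
        map_mul' := fun _ _ => by funext x; cases x <;> rfl } ?_ (hC.prod _ _ h ih)
    intro w
    refine ⟨(w none, fun x => w (some x)), ?_⟩
    funext x
    cases x <;> rfl

theorem C_semi (hC : IsPseudovariety C) (hE : IsExtClosed C) {N B : Type} [Group N] [Group B]
    (φ : B →* MulAut N) (hN : C N) (hB : C B) : C (N ⋊[φ] B) := by
  apply hE (N ⋊[φ] B) (SemidirectProduct.rightHom : N ⋊[φ] B →* B).ker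
  · apply C_equiv hC _ hN
    exact (MonoidHom.ofInjective (SemidirectProduct.inl_injective (φ := φ))).trans
      (MulEquiv.subgroupCongr SemidirectProduct.range_inl_eq_ker_rightHom)
  · apply C_equiv hC _ hB
    exact (QuotientGroup.quotientKerEquivOfSurjective _ SemidirectProduct.rightHom_surjective).symm

theorem C_trivial (hC : IsPseudovariety C) {A : Type} [Group A] (h : C A) (B : Type) [Group B]
    [Subsingleton B] : C B := hC.image A B 1 (fun _ => ⟨1, Subsingleton.elim _ _⟩) h

/-- The groups of prime order in `C`. -/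
theorem C_Z (hC : IsPseudovariety C) {A : Type} [Group A] (h : C A) {q : ℕ} (hq : q.Prime)
    (hd : q ∣ Nat.card A) : C (Z q) := by
  have : Fact q.Prime := ⟨hq⟩
  have := hC.fin A h
  obtain ⟨x, hx⟩ := exists_prime_orderOf_dvd_card' (G := A) q hd
  have hN : Nat.card (Subgroup.zpowers x) = q := by rw [Nat.card_zpowers, hx]
  exact C_equiv hC (mulEquivOfPrimeCardEq hN (card_Z q)) (hC.sub _ _ h)

end

variable {G : Type} [Group G] [TopologicalSpace G] [IsTopologicalGroup G]
variable {H : Type} [Group H] [TopologicalSpace H] [IsTopologicalGroup H]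
variable {C : ∀ (A : Type) [Group A], Prop}

/-- A natural family of bijections, for targets in `C`. -/
structure LinkIn (C : ∀ (A : Type) [Group A], Prop) (G H : Type) [Group G] [TopologicalSpace G]
    [IsTopologicalGroup G] [Group H] [TopologicalSpace H] [IsTopologicalGroup H] (n : ℕ) where
  E : ∀ (A : Type) [Group A], C A → ((CH G A × CH H A) ≃ (Fin n → A))
  nat : ∀ (A B : Type) [Group A] [Group B] (hA : C A) (hB : C B) (π : A →* B)
    (φ : CH G A) (ψ : CH H A), E B hB (cmap π φ, cmap π ψ) = π ∘ E A hA (φ, ψ)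

def LinkIn.symm {n : ℕ} (L : LinkIn C G H n) : LinkIn C H G n where
  E A _ hA := (Equiv.prodComm _ _).trans (L.E A hA)
  nat A B _ _ hA hB π φ ψ := by
    simpa using L.nat A B hA hB π ψ φ

theorem LinkIn.card_mul {n : ℕ} (L : LinkIn C G H n) (A : Type) [Group A] (hA : C A) :
    hh G A * hh H A = Nat.card A ^ n := by
  have h1 := Nat.card_congr (L.E A hA)
  rw [Nat.card_prod] at h1
  rw [hh, hh, h1]
  simp [Nat.card_fun]

theorem LinkIn.hh_pos {n : ℕ} (hC : IsPseudovariety C) (L : LinkIn C G H n) (A : Type) [Group A]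
    (hA : C A) : 0 < hh G A := by
  have := hC.fin A hA
  have h1 := L.card_mul A hA
  have h2 : 0 < Nat.card A ^ n := pow_pos Nat.card_pos n
  rw [← h1] at h2
  exact Nat.pos_of_mul_pos_right h2

/-- Regularity with respect to `C`. -/
structure RegIn (C : ∀ (A : Type) [Group A], Prop) (G : Type) [Group G] [TopologicalSpace G]
    [IsTopologicalGroup G] : Prop where
  fin : ∀ (A : Type) [Group A], C A → Finite (CH G A)
  lift : ∀ (A Q : Type) [Group A] [Group Q] (π : A →* Q), C A →
    Surjective π → ∀ φ : CH G Q,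
      Nat.card {φ' : CH G A // cmap π φ' = φ} = hh G π.ker

theorem LinkIn.lifts_mul {n : ℕ} (hC : IsPseudovariety C) (L : LinkIn C G H n) {A Q : Type}
    [Group A] [Group Q] (π : A →* Q) (hA : C A) (hπ : Surjective π)
    (φ : CH G Q) (ψ : CH H Q) :
    Nat.card {φ' : CH G A // cmap π φ' = φ} * Nat.card {ψ' : CH H A // cmap π ψ' = ψ} =
      Nat.card π.ker ^ n := by
  have hQ : C Q := hC.image A Q π hπ hA
  have := hC.fin A hA
  have e1 : ({φ' : CH G A // cmap π φ' = φ} × {ψ' : CH H A // cmap π ψ' = ψ}) ≃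
      {t : Fin n → A // π ∘ t = L.E Q hQ (φ, ψ)} :=
    { toFun := fun p => ⟨L.E A hA (p.1.1, p.2.1), by
        rw [← L.nat A Q hA hQ, p.1.2, p.2.2]⟩
      invFun := fun t =>
        have key : (cmap π ((L.E A hA).symm t.1).1, cmap π ((L.E A hA).symm t.1).2) = (φ, ψ) := by
          apply (L.E Q hQ).injective
          rw [L.nat A Q hA hQ]
          rw [Prod.mk.eta, Equiv.apply_symm_apply]
          exact t.2
        (⟨((L.E A hA).symm t.1).1, (Prod.ext_iff.mp key).1⟩,
          ⟨((L.E A hA).symm t.1).2, (Prod.ext_iff.mp key).2⟩)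
      left_inv := fun p => by
        apply Prod.ext
        · apply Subtype.ext; simp
        · apply Subtype.ext; simp
      right_inv := fun t => by
        apply Subtype.ext; simp }
  rw [← Nat.card_prod, Nat.card_congr e1]
  have e2 : {t : Fin n → A // π ∘ t = L.E Q hQ (φ, ψ)} ≃
      ∀ i : Fin n, {a : A // π a = L.E Q hQ (φ, ψ) i} :=
    { toFun := fun t i => ⟨t.1 i, congrFun t.2 i⟩
      invFun := fun s => ⟨fun i => (s i).1, funext fun i => (s i).2⟩
      left_inv := fun t => rfl
      right_inv := fun s => rfl }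
  rw [Nat.card_congr e2, Nat.card_pi]
  rw [Finset.prod_congr rfl (fun i _ => card_coset π hπ (L.E Q hQ (φ, ψ) i))]
  simp

theorem LinkIn.reg {n : ℕ} (hC : IsPseudovariety C) (L : LinkIn C G H n) : RegIn C G where
  fin A _ hA := (Nat.card_pos_iff.mp (L.hh_pos hC A hA)).2
  lift A Q _ _ π hA hπ φ := by
    have h1 := L.lifts_mul hC π hA hπ φ 1
    have h2 := L.lifts_mul hC π hA hπ 1 1
    rw [card_lifts_one (G := G) π] at h2
    rw [← h2] at h1
    apply Nat.eq_of_mul_eq_mul_right _ h1
    rw [card_lifts_one (G := H) π]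
    exact L.symm.hh_pos hC _ (hC.sub _ _ hA)

theorem RegIn.mul_quot (hC : IsPseudovariety C) (R : RegIn C G) {A : Type} [Group A]
    (N : Subgroup A) [N.Normal] (hA : C A) :
    hh G A = hh G (A ⧸ N) * hh G N := by
  have hπ : Surjective (QuotientGroup.mk' N) := QuotientGroup.mk'_surjective N
  have hQ : C (A ⧸ N) := hC.image _ _ _ hπ hA
  have h1 : Finite (CH G (A ⧸ N)) := R.fin _ hQ
  have h2 : Finite (CH G A) := R.fin A hA
  have h3 := card_of_fibres (fun φ' : CH G A => cmap (QuotientGroup.mk' N) φ')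
    (hh G (QuotientGroup.mk' N).ker) (fun φ => R.lift A _ _ hA hπ φ)
  rw [QuotientGroup.ker_mk'] at h3
  exact h3

theorem RegIn.comm_aux (hC : IsPseudovariety C) (R : RegIn C G) (k : ℕ) :
    ∀ (A : Type) [CommGroup A], C A → Nat.card A = k → hh G A = cc G k := by
  induction k using Nat.strong_induction_on with
  | _ k ih =>
    intro A _ hCA hA
    have := hC.fin A hCA
    by_cases h1 : k = 1
    · subst h1
      have : Subsingleton A := (Nat.card_eq_one_iff_unique.mp hA).1
      rw [hh_subsingleton, cc_one]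
    · have hk0 : k ≠ 0 := by
        rw [← hA]; exact Nat.card_pos.ne'
      obtain ⟨q, hq, hqk⟩ := Nat.exists_prime_and_dvd h1
      have : Fact q.Prime := ⟨hq⟩
      obtain ⟨x, hx⟩ := exists_prime_orderOf_dvd_card' (G := A) q (by rw [hA]; exact hqk)
      have hN : Nat.card (Subgroup.zpowers x) = q := by rw [Nat.card_zpowers, hx]
      have hc := Subgroup.card_eq_card_quotient_mul_card_subgroup (Subgroup.zpowers x)
      rw [hA, hN] at hc
      have hlt : Nat.card (A ⧸ Subgroup.zpowers x) < k := by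
        rw [hc]
        have h0 : 0 < Nat.card (A ⧸ Subgroup.zpowers x) := Nat.card_pos
        nlinarith [hq.two_le]
      rw [R.mul_quot hC (Subgroup.zpowers x) hCA,
        ih _ hlt _ (hC.image _ _ (QuotientGroup.mk' (Subgroup.zpowers x))
          (QuotientGroup.mk'_surjective _) hCA) rfl, hh_prime hq hN, ← cc_prime hq,
        ← cc_mul Nat.card_pos.ne' hq.ne_zero, ← hc]

theorem RegIn.comm (hC : IsPseudovariety C) (R : RegIn C G) (A : Type) [CommGroup A] (hA : C A) :
    hh G A = cc G (Nat.card A) := R.comm_aux hC _ A hA rfl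

/-- The bijections attached to a coproduct which is free. -/
theorem exists_equiv_in {P : Type} [Group P] [TopologicalSpace P] [IsTopologicalGroup P]
    (hC : IsPseudovariety C) (iG : ContinuousMonoidHom G P) (iH : ContinuousMonoidHom H P)
    (hP : IsCoprodIn C G H P iG iH) (n : ℕ) (ι : Fin n → P)
    (hι : ∀ (K : Type) [Group K] [TopologicalSpace K] [IsTopologicalGroup K] [CompactSpace K]
      [T2Space K] [TotallyDisconnectedSpace K], IsPro C K → ∀ f : Fin n → K,
      ∃! φ : ContinuousMonoidHom P K, ∀ i, φ (ι i) = f i)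
    (A : Type) [Group A] (hA : C A) :
    ∃ E : (CH G A × CH H A) ≃ (Fin n → A), ∀ (φ : CH G A) (ψ : CH H A) (Θ : CH P A),
      (∀ x, Θ.1 (iG x) = φ.1 x) → (∀ y, Θ.1 (iH y) = ψ.1 y) →
        E (φ, ψ) = fun i => Θ.1 (ι i) := by
  have hfA := hC.fin A hA
  let _ : TopologicalSpace A := ⊥
  have : DiscreteTopology A := ⟨rfl⟩
  have hK : IsPro C A := fun V _ _ =>
    hC.image _ _ (QuotientGroup.mk' V) (QuotientGroup.mk'_surjective V) hA
  have h1 := fun (p : CH G A × CH H A) => hP A hK (toC p.1) (toC p.2)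
  choose Φ hΦ hΦu using h1
  have h2 := fun (t : Fin n → A) => hι A hK t
  choose Ψ hΨ hΨu using h2
  have hΦ1 : ∀ (p : CH G A × CH H A) x, Φ p (iG x) = p.1.1 x := fun p x => (hΦ p).1 x
  have hΦ2 : ∀ (p : CH G A × CH H A) x, Φ p (iH x) = p.2.1 x := fun p x => (hΦ p).2 x
  refine ⟨{ toFun := fun p i => Φ p (ι i)
            invFun := fun t => (ofC ((Ψ t).comp iG), ofC ((Ψ t).comp iH))
            left_inv := ?_
            right_inv := ?_ }, ?_⟩
  · intro p
    have h3 : Ψ (fun i => Φ p (ι i)) = Φ p :=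
      (hΨu (fun i => Φ p (ι i)) (Φ p) (fun i => rfl)).symm
    apply Prod.ext
    · apply ch_ext
      intro g
      change Ψ (fun i => Φ p (ι i)) (iG g) = p.1.1 g
      rw [h3, hΦ1]
    · apply ch_ext
      intro g
      change Ψ (fun i => Φ p (ι i)) (iH g) = p.2.1 g
      rw [h3, hΦ2]
  · intro t
    funext i
    have h3 : Ψ t = Φ (ofC ((Ψ t).comp iG), ofC ((Ψ t).comp iH)) := by
      apply hΦu
      exact ⟨fun x => rfl, fun y => rfl⟩
    change Φ (ofC ((Ψ t).comp iG), ofC ((Ψ t).comp iH)) (ι i) = t i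
    rw [← h3]
    exact hΨ t i
  · intro φ ψ Θ h3 h4
    funext i
    change Φ (φ, ψ) (ι i) = Θ.1 (ι i)
    have h5 : toC Θ = Φ (φ, ψ) := by
      apply hΦu
      exact ⟨fun x => h3 x, fun y => h4 y⟩
    rw [← h5]; rfl

theorem exists_link_in {P : Type} [Group P] [TopologicalSpace P] [IsTopologicalGroup P]
    (hC : IsPseudovariety C) (iG : ContinuousMonoidHom G P) (iH : ContinuousMonoidHom H P)
    (hP : IsCoprodIn C G H P iG iH) (n : ℕ) (hF : IsFreeIn C P n) :
    Nonempty (LinkIn C G H n) := by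
  obtain ⟨ι, hι⟩ := hF
  choose E hE using fun (A : Type) [Group A] (hA : C A) =>
    exists_equiv_in hC iG iH hP n ι hι A hA
  refine ⟨⟨fun A _ hA => E A hA, ?_⟩⟩
  intro A B _ _ hA hB π φ ψ
  have hfA := hC.fin A hA
  have hex : ∃ Θ : CH P A, (∀ x, Θ.1 (iG x) = φ.1 x) ∧ (∀ y, Θ.1 (iH y) = ψ.1 y) := by
    let _ : TopologicalSpace A := ⊥
    have : DiscreteTopology A := ⟨rfl⟩
    have hK : IsPro C A := fun V _ _ =>
      hC.image _ _ (QuotientGroup.mk' V) (QuotientGroup.mk'_surjective V) hA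
    obtain ⟨Θ, hΘ, _⟩ := hP A hK (toC φ) (toC ψ)
    exact ⟨ofC Θ, hΘ.1, hΘ.2⟩
  obtain ⟨Θ, h1, h2⟩ := hex
  rw [hE B hB (cmap π φ) (cmap π ψ) (cmap π Θ) (fun x => by rw [cmap_apply, h1]; rfl)
    (fun y => by rw [cmap_apply, h2]; rfl), hE A hA φ ψ Θ h1 h2]
  rfl

theorem LinkIn.prime_pow {n : ℕ} (L : LinkIn C G H n) {q : ℕ} (hq : q.Prime) (hZ : C (Z q)) :
    ∃ a b : ℕ, a + b = n ∧ hh G (Z q) = q ^ a ∧ hh H (Z q) = q ^ b := by
  have h := L.card_mul (Z q) hZ
  rw [card_Z] at h
  have hd : hh G (Z q) ∣ q ^ n := ⟨_, h.symm⟩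
  obtain ⟨a, ha, hae⟩ := (Nat.dvd_prime_pow hq).mp hd
  refine ⟨a, n - a, by omega, hae, ?_⟩
  rw [hae] at h
  have h3 : q ^ n = q ^ a * q ^ (n - a) := by rw [← pow_add]; congr 1; omega
  rw [h3] at h
  exact Nat.eq_of_mul_eq_mul_left (pow_pos hq.pos a) h

end Pool.Agent.H50.PSV
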